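import Pool.Agent.TH710.SP.Curve
import Pool.Agent.W602.GT.SConst
import Pool.Agent.W602.GT.SBroC

/-!
Linear spaces minus independent hyperplanes are special and have Zariski-dense entire curves.
-/

set_option autoImplicit false

open FF MvPolynomial Pool.Agent.W603.LV Pool.Agent.W603.GR Pool.Agent.W603.GW
  Pool.Agent.W602.GT Pool.Agent.W603.GX Pool.Agent.W603.GY Pool.Agent.TH710.ND

namespace Pool.Agent.TH710.SP

variable {k : Type} [Field k] {n : ℕ} {ι κ : Type} {K : Type} [Field K] [Algebra k K]
  {Q : κ → MvPolynomial (Fin (n + 1)) k}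
  {y : Fin (n + 1) → K} {r q : ℕ} {m v : Fin r → Fin (n + 1) → k} {e : Fin q → Fin r}
  {a : κ → Fin q} {c : κ → k}

/-- the linear form with coefficients `l` -/
noncomputable def lf (l : Fin (n + 1) → k) : MvPolynomial (Fin (n + 1)) k := ∑ j, C (l j) * X j

theorem lf_hom (l : Fin (n + 1) → k) : (lf l).IsHomogeneous 1 := by
  apply IsHomogeneous.sum
  intro j _
  have := (isHomogeneous_C (Fin (n + 1)) (l j)).mul (isHomogeneous_X k j)
  simpa using this

theorem val_lf {M : Type} [Field M] [Algebra k M] (l : Fin (n + 1) → k) (x : Fin (n + 1) → M) :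
    Pool.Agent.W602.GT.val x (lf l) = lin l x := by
  unfold Pool.Agent.W602.GT.val lf
  exact aeval_lin l x

/-- the value of the boundary forms at the generic point -/
theorem LinPair.val_y [Infinite k] (h : LinPair Q y m v e a c) (j : κ) :
    Pool.Agent.W602.GT.val y (Q j) =
      algebraMap k K (c j) * lin (m (e (a j))) y ^ (Q j).totalDegree := by
  have h1 := h.frame.val_of_hull (G := Q j - C (c j) * lf (m (e (a j))) ^ (Q j).totalDegree) (by
    intro x hx
    unfold Pool.Agent.W602.GT.val
    rw [map_sub, map_mul, map_pow, aeval_C]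
    have h2 := h.bd j x hx
    have h3 := val_lf (m (e (a j))) x
    unfold Pool.Agent.W602.GT.val at h2 h3
    rw [h2, h3, Algebra.algebraMap_self, RingHom.id_apply, sub_self])
  unfold Pool.Agent.W602.GT.val at h1 ⊢
  rw [map_sub, map_mul, map_pow, aeval_C] at h1
  have h3 := val_lf (m (e (a j))) y
  unfold Pool.Agent.W602.GT.val at h3
  rw [h3] at h1
  exact sub_eq_zero.1 h1

/-- the coordinate ratios are algebraically independent -/
theorem LinPair.alg_ind [Infinite k] (h : LinPair Q y m v e a c) (b0 : Fin r) :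
    AlgebraicIndependent k (fun b : {b : Fin r // b ≠ b0} => lin (m b.1) y / lin (m b0) y) := by
  classical
  have hz0 : ∀ b, lin (m b) y ≠ 0 := fun b => h.frame.ind.ne_zero b
  rw [algebraicIndependent_iff]
  intro p hp
  set D := p.totalDegree with hD
  let G : MvPolynomial (Fin (n + 1)) k := ∑ α ∈ p.support, C (p.coeff α) *
    (lf (m b0) ^ (D - ∑ b, α b) * ∏ b, lf (m b.1) ^ α b)
  have hdeg : ∀ α ∈ p.support, ∑ b, α b ≤ D := by
    intro α hα
    have := le_totalDegree hα
    rwa [Finsupp.sum_fintype _ _ (fun _ => rfl)] at this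
  have hG : IsForm G := by
    refine ⟨D, ?_⟩
    apply IsHomogeneous.sum
    intro α hα
    have h1 : (∏ b, lf (m b.1) ^ α b : MvPolynomial (Fin (n + 1)) k).IsHomogeneous
        (∑ b : {b : Fin r // b ≠ b0}, α b) := by
      apply IsHomogeneous.prod
      intro b _
      have := (lf_hom (m b.1)).pow (α b)
      rwa [one_mul] at this
    have h2 := (lf_hom (m b0)).pow (D - ∑ b, α b)
    rw [one_mul] at h2
    have h3 := (isHomogeneous_C (Fin (n + 1)) (p.coeff α)).mul (h2.mul h1)
    rwa [zero_add, Nat.sub_add_cancel (hdeg α hα)] at h3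
  have hval : ∀ {M : Type} [Field M] [Algebra k M] (x : Fin (n + 1) → M),
      Pool.Agent.W602.GT.val x G = ∑ α ∈ p.support, algebraMap k M (p.coeff α) *
        (lin (m b0) x ^ (D - ∑ b, α b) * ∏ b : {b : Fin r // b ≠ b0}, lin (m b.1) x ^ α b) := by
    intro M _ _ x
    unfold Pool.Agent.W602.GT.val
    rw [map_sum]
    refine Finset.sum_congr rfl fun α _ => ?_
    rw [map_mul, map_mul, map_pow, map_prod, aeval_C]
    have h1 : ∀ l : Fin (n + 1) → k, aeval x (lf l) = lin l x := fun l => by
      have := val_lf l x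
      unfold Pool.Agent.W602.GT.val at this
      exact this
    simp only [map_pow, h1]
  have hy0 : Pool.Agent.W602.GT.val y G = 0 := by
    rw [hval]
    have h1 : ∀ α ∈ p.support, algebraMap k K (p.coeff α) *
        (lin (m b0) y ^ (D - ∑ b, α b) * ∏ b : {b : Fin r // b ≠ b0}, lin (m b.1) y ^ α b) =
        lin (m b0) y ^ D * (algebraMap k K (p.coeff α) *
          ∏ b : {b : Fin r // b ≠ b0}, (lin (m b.1) y / lin (m b0) y) ^ α b) := by
      intro α hα
      simp only [div_pow]
      rw [Finset.prod_div_distrib, Finset.prod_pow_eq_pow_sum]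
      have h2 : lin (m b0) y ^ D = lin (m b0) y ^ (D - ∑ b, α b) * lin (m b0) y ^ (∑ b, α b) := by
        rw [← pow_add, Nat.sub_add_cancel (hdeg α hα)]
      rw [h2]
      have h3 := pow_ne_zero (∑ b, α b) (hz0 b0)
      field_simp
    rw [Finset.sum_congr rfl h1, ← Finset.mul_sum]
    rw [aeval_def, eval₂_eq'] at hp
    rw [hp, mul_zero]
  apply MvPolynomial.funext
  intro s
  rw [map_zero]
  let s' : Fin r → k := fun b => if hb : b = b0 then 1 else s ⟨b, hb⟩
  have h1 := h.var _ (h.frame.mem s') G hG hy0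
  rw [hval] at h1
  have hl : ∀ b, lin (m b) (fun i => ∑ b, s' b * v b i) = s' b := by
    intro b
    have h1 := lin_sum (m b) s' v
    simp only [Algebra.algebraMap_self, RingHom.id_apply] at h1
    rw [h1, Finset.sum_eq_single b]
    · rw [h.frame.dual, if_pos rfl, mul_one]
    · intro b' _ hb'
      rw [h.frame.dual, if_neg (Ne.symm hb'), mul_zero]
    · intro h
      exact absurd (Finset.mem_univ _) h
  rw [eval_eq', ← h1]
  refine Finset.sum_congr rfl fun α _ => ?_
  rw [Algebra.algebraMap_self, RingHom.id_apply, hl]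
  have h2 : s' b0 = 1 := by simp only [s', dif_pos rfl]
  rw [h2, one_pow, one_mul]
  congr 1
  refine Finset.prod_congr rfl fun b _ => ?_
  rw [hl]
  have h3 : s' b.1 = s b := by simp only [s', dif_neg b.2]
  rw [h3]

/-- **Linear spaces minus independent hyperplanes are special.** -/
theorem LinPair.special [IsAlgClosed k] [CharZero k] (h : LinPair Q y m v e a c) (hy0 : y ≠ 0)
    (hgen : coords k y = ⊤) {w : ℕ} (hdim : Algebra.trdeg k K = w) :
    Special k K w (OffAny Q y) := by
  classical
  have hinf : Infinite k := inferInstance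
  have hr : 0 < r := by
    rw [Nat.pos_iff_ne_zero]
    rintro rfl
    apply hy0
    funext i
    rw [h.frame.dec i]
    simp
  let b0 : Fin r := ⟨0, hr⟩
  have hz0 : ∀ b, lin (m b) y ≠ 0 := fun b => h.frame.ind.ne_zero b
  have hind := h.alg_ind b0
  let σ' : {b : Fin r // b ≠ b0} → K := fun b => lin (m b.1) y / lin (m b0) y
  have hzmem : ∀ b, lin (m b) y / lin (m b0) y ∈ IntermediateField.adjoin k (Set.range σ') := by
    intro b
    by_cases hb : b = b0
    · rw [hb, div_self (hz0 b0)]
      exact one_mem _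
    · exact IntermediateField.subset_adjoin k _ ⟨⟨b, hb⟩, rfl⟩
  have hymem : ∀ i, y i / lin (m b0) y ∈ IntermediateField.adjoin k (Set.range σ') := by
    intro i
    rw [h.frame.dec i, Finset.sum_div]
    refine sum_mem fun b _ => ?_
    rw [mul_div_assoc]
    exact mul_mem (IntermediateField.algebraMap_mem _ _) (hzmem b)
  have htop : IntermediateField.adjoin k (Set.range σ') = ⊤ := by
    rw [eq_top_iff, ← hgen]
    unfold coords
    rw [IntermediateField.adjoin_le_iff]
    rintro _ ⟨i, j, hj, rfl⟩
    have h1 := div_mem (hymem i) (hymem j)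
    rwa [div_div_div_cancel_right₀ (hz0 b0)] at h1
  have hbasis : IsTranscendenceBasis k σ' := by
    rw [hind.isTranscendenceBasis_iff_isAlgebraic]
    apply alg_adjoin
    rw [htop]
    exact ⟨fun x => isAlgebraic_algebraMap (A := K) (⟨x, trivial⟩ : (⊤ : IntermediateField k K))⟩
  obtain ⟨w', ⟨φ⟩⟩ := Finite.exists_equiv_fin {b : Fin r // b ≠ b0}
  let σ : Fin w' → K := σ' ∘ φ.symm
  have hσ : IsTranscendenceBasis k σ := hbasis.comp_equiv φ.symm
  obtain rfl : w' = w := by
    have h1 := hσ.cardinalMk_eq_trdeg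
    rw [Cardinal.mk_fin, hdim] at h1
    exact_mod_cast h1
  refine special_of_frame σ hσ ?_ ?_
  · have h1 : Set.range σ = Set.range σ' := by
      ext x
      constructor
      · rintro ⟨b, rfl⟩
        exact ⟨φ.symm b, rfl⟩
      · rintro ⟨b, rfl⟩
        exact ⟨φ b, by simp [σ]⟩
    rw [h1, htop]
  · rintro P hP ⟨j, i, hi, hlt⟩
    have hord : ∀ b, P.ord (lin (m b) y) = P.ord (lin (m b0) y) := by
      intro b
      by_cases hb : b = b0
      · rw [hb]
      · have h1 := hP (φ ⟨b, hb⟩)
        simp only [σ, Function.comp_apply, Equiv.symm_apply_apply, σ'] at h1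
        rw [P.ord_div (hz0 b) (hz0 b0)] at h1
        omega
    have hge : P.ord (lin (m b0) y) ≤ P.ord (y i) := by
      have h1 : Ge P (P.ord (lin (m b0) y)) (y i) := by
        rw [h.frame.dec i]
        refine Ge.sum _ _ (fun b _ => ?_)
        by_cases h0 : v b i = 0
        · rw [h0, map_zero, zero_mul]
          exact Ge.zero
        · right
          rw [P.ord_mul (by rw [Ne, map_eq_zero]; exact h0) (hz0 b), P.ord_const h0, zero_add,
            hord b]
      rcases h1 with h1 | h1
      · exact absurd h1 hi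
      · exact h1
    rw [h.val_y j, P.ord_mul (by rw [Ne, map_eq_zero]; exact h.cne j)
      (pow_ne_zero _ (hz0 _)), P.ord_const (h.cne j), zero_add, P.ord_pow, hord] at hlt
    have h2 : (0 : ℤ) ≤ (Q j).totalDegree := Int.natCast_nonneg _
    have h3 := mul_le_mul_of_nonneg_left hge h2
    omega

section curve

variable {K : Type} [Field K] [Algebra ℂ K] {Q : κ → MvPolynomial (Fin (n + 1)) ℂ}
  {y : Fin (n + 1) → K} {r q : ℕ} {m v : Fin r → Fin (n + 1) → ℂ} {e : Fin q → Fin r}
  {a : κ → Fin q} {c : κ → ℂ}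

/-- **Linear spaces minus independent hyperplanes have Zariski-dense entire curves.** -/
theorem LinPair.curve (h : LinPair Q y m v e a c) (hy0 : y ≠ 0) : ∃ f, DenseCurve Q y f := by
  classical
  have hr : 0 < r := by
    rw [Nat.pos_iff_ne_zero]
    rintro rfl
    apply hy0
    funext i
    rw [h.frame.dec i]
    simp
  obtain ⟨lam, hlam⟩ := exists_lam ℂ r
  let s : ℂ → Fin r → ℂ := fun z b => Complex.exp (lam b * z)
  let f : ℂ → Fin (n + 1) → ℂ := fun z i => ∑ b, s z b * v b i
  have hmem : ∀ z, f z ∈ Hull ℂ y := fun z => h.frame.mem (s z)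
  have hl : ∀ z b, lin (m b) (f z) = s z b := by
    intro z b
    have h1 := lin_sum (m b) (s z) v
    simp only [Algebra.algebraMap_self, RingHom.id_apply] at h1
    simp only [f]
    rw [h1, Finset.sum_eq_single b]
    · rw [h.frame.dual, if_pos rfl, mul_one]
    · intro b' _ hb'
      rw [h.frame.dual, if_neg (Ne.symm hb'), mul_zero]
    · intro h
      exact absurd (Finset.mem_univ _) h
  have hl0 : ∀ z b, lin (m b) (f z) ≠ 0 := by
    intro z b
    rw [hl]
    exact Complex.exp_ne_zero _
  refine ⟨f, ?_, fun z => ⟨⟨?_, fun G hG hyG => h.var _ (hmem z) G hG hyG⟩, fun j => ?_⟩, ?_⟩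
  · rw [differentiable_pi]
    intro i
    simp only [f]
    apply Differentiable.fun_sum
    intro b _
    refine Differentiable.mul_const ?_ _
    exact (differentiable_id.const_mul (lam b)).cexp
  · intro h0
    apply hl0 z ⟨0, hr⟩
    rw [h0]
    unfold lin
    simp
  · rw [h.bd j _ (hmem z)]
    exact mul_ne_zero (h.cne j) (pow_ne_zero _ (hl0 z _))
  · intro G hG hz
    let p : MvPolynomial (Fin r) ℂ :=
      aeval (fun i => ∑ b, C (v b i) * X b : Fin (n + 1) → MvPolynomial (Fin r) ℂ) G
    have hp : ∀ {M : Type} [Field M] [Algebra ℂ M] (x : Fin r → M), aeval x p =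
        Pool.Agent.W602.GT.val (fun i => ∑ b, algebraMap ℂ M (v b i) * x b) G := by
      intro M _ _ x
      simp only [p]
      rw [← AlgHom.comp_apply, comp_aeval]
      unfold Pool.Agent.W602.GT.val
      congr 2
      funext i
      rw [map_sum]
      refine Finset.sum_congr rfl fun b _ => ?_
      rw [map_mul, aeval_C, aeval_X]
    have h0 : p = 0 := by
      refine exp_indep lam hlam p fun z => ?_
      rw [hp, ← hz z]
      congr 1
      funext i
      exact Finset.sum_congr rfl fun b _ => mul_comm _ _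
    have h1 := hp (fun b => lin (m b) y)
    rw [h0, map_zero] at h1
    rw [h1]
    congr 1
    funext i
    exact h.frame.dec i

end curve

end Pool.Agent.TH710.SP
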