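import Pool.Agent.TH710.ND.Fam
import Pool.Agent.W602.GT.SDich

/-!
Forms of lower degree from finite families of circuits whose orders jump.
-/

set_option autoImplicit false

open FF Pool.Agent.W603.LV Pool.Agent.W602.GT Pool.Agent.TH710.ND

namespace Pool.Agent.TH710.SP

variable {k K : Type} [Field k] [Field K] [Algebra k K]

theorem GI_agree {I : Type} [Fintype I] {m : I → ℕ} (T : ∀ i, Fin (m i + 1) → K)
    (hT : ∀ i j, T i j ≠ 0)
    (E δ : Derivation k K K) (u : K) (L : Set K) (hL : ∀ v ∈ L, δ v ∈ L)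
    (hE : ∀ v ∈ L, E v = u * δ v) (hTL : ∀ i j, T i j / T i 0 ∈ L) (x : I → K) :
    GI T E x = u ^ wtI m * GI T δ x := by
  unfold GI wtI
  rw [← Finset.prod_pow_eq_pow_sum, ← Finset.prod_mul_distrib]
  refine Finset.prod_congr rfl fun i _ => ?_
  rw [eta_agree E δ u L hL hE (T i) (hT i) (hTL i), mul_pow, ← pow_mul, mul_comm (m i + 2)]
  ring

/-- **Forms of degree `h`.** -/
theorem coreI [IsAlgClosed k] [CharZero k] {h p : ℕ} {I : Type} [Fintype I] {m : I → ℕ}
    (T : ∀ i, Fin (m i + 1) → K) (hh : 0 < h) (hT : ∀ i j, T i j ≠ 0)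
    (hsum : ∀ i, ∑ j, T i j = 0)
    (hlin : ∀ i, LinearIndependent k (fun l => T i ((Fin.last (m i)).succAbove l)))
    (ix : Fin h → I) {x0 x1 : I → K}
    (hx0 : ∀ i, ∃ j, x0 i = T i j) (hx1 : ∀ i, ∃ j, x1 i = T i j)
    (t : Fin h → K) (ht : ∀ j, t j = x1 (ix j) / x0 (ix j))
    (u : Fin p → K) (hbasis : IsTranscendenceBasis k (Sum.elim t u))
    (hTL : ∀ D : Derivation k K K, (∀ i, D (t i) = 0) → ∀ i j, D (T i j / T i 0) = 0) :
    0 < wtI m ∧ ∃ g : Fin (h + 1) → K, g 0 ≠ 0 ∧ (∀ i : Fin h, g i.succ / g 0 = t i) ∧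
      ∀ (P : Place k K) (D : Fin h → Derivation k K K),
        ((∀ i, DerLog P (D i)) → ∀ j, P.Reg (form t (wtI m) (g j) D)) ∧
        (((∀ i j l, P.ord (T i j) = P.ord (T i l)) ∨
          ∃ i j l, (wtI m : ℤ) ≤ |P.ord (T i j) - P.ord (T i l)|) →
          (∀ i, DerReg P (D i)) → ∀ j, P.Reg (form t (wtI m) (g j) D)) := by
  classical
  obtain ⟨lam, D0, hD0, hconst⟩ := exists_D0 t u hbasis
  have hx0n : ∀ i, x0 i ≠ 0 := fun i => by
    obtain ⟨j, hj⟩ := hx0 i
    rw [hj]
    exact hT i j
  have hx1n : ∀ i, x1 i ≠ 0 := fun i => by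
    obtain ⟨j, hj⟩ := hx1 i
    rw [hj]
    exact hT i j
  have ht0 : ∀ j, t j ≠ 0 := fun j => by
    rw [ht]
    exact div_ne_zero (hx1n _) (hx0n _)
  have htr : ∀ i, Transcendental k (t i) := fun i => hbasis.1.transcendental (Sum.inl i)
  have heta0 : ∀ i, eta D0 (T i) ≠ 0 := fun i =>
    div_ne_zero (wr_ne hconst _ (hlin i)) (Finset.prod_ne_zero_iff.2 fun j _ => hT i j)
  have hGI0 : ∀ x : I → K, (∀ i, x i ≠ 0) → GI T D0 x ≠ 0 := fun x hx =>
    Finset.prod_ne_zero_iff.2 fun i _ => mul_ne_zero (mul_ne_zero (pow_ne_zero _ (heta0 i))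
      (Finset.prod_ne_zero_iff.2 fun j _ => hT i j)) (hx i)
  have hpt : (∏ j, t j) ≠ 0 := Finset.prod_ne_zero_iff.2 fun j _ => ht0 j
  set N := wtI m with hN
  have hpos : 0 < N := by
    rw [Nat.pos_iff_ne_zero]
    intro h0
    rw [hN, wtI, Finset.sum_eq_zero_iff] at h0
    have h1 := h0 (ix ⟨0, hh⟩) (Finset.mem_univ _)
    have h2 : tn (m (ix ⟨0, hh⟩)) = 0 := by
      rcases Nat.mul_eq_zero.1 h1 with h | h
      · omega
      · exact h
    have h3 : m (ix ⟨0, hh⟩) ≤ 1 := by
      by_contra hcon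
      rw [tn, Finset.sum_eq_zero_iff] at h2
      have := h2 ⟨1, by omega⟩ (Finset.mem_univ _)
      simp at this
    obtain ⟨j1, hj1⟩ := hx1 (ix ⟨0, hh⟩)
    obtain ⟨j0, hj0⟩ := hx0 (ix ⟨0, hh⟩)
    obtain ⟨c, hc⟩ := Pool.Agent.W602.GT.ratio_const (k := k) h3 (T (ix ⟨0, hh⟩)) (hT _)
      (hsum _) j1 j0
    rw [← hj1, ← hj0, ← ht] at hc
    have h4 := htr ⟨0, hh⟩
    rw [hc] at h4
    exact h4 (isAlgebraic_algebraMap c)
  -- the subfield on which the contractions are multiples of `D0`
  let L : Set K := {v | ∀ D : Derivation k K K, (∀ i, D (t i) = 0) → D v = 0}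
  have hL : ∀ v ∈ L, D0 v ∈ L := by
    intro v hv D hD
    have h1 : (⁅D, D0⁆ : Derivation k K K) v = 0 := by
      apply hv
      intro i
      rw [Derivation.commutator_apply, hD0, hD, map_zero, sub_zero, D.leibniz, hD,
        D.map_algebraMap]
      simp
    rw [Derivation.commutator_apply, hv D hD, map_zero, sub_zero] at h1
    exact h1
  let xx : Fin (h + 1) → I → K :=
    Fin.cases x0 fun j => Function.update x0 (ix j) (x1 (ix j))
  have hxx : ∀ j i, ∃ l, xx j i = T i l := by
    intro j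
    refine Fin.cases (fun i => hx0 i) (fun j i => ?_) j
    change ∃ l, Function.update x0 (ix j) (x1 (ix j)) i = T i l
    by_cases hi : i = ix j
    · subst hi
      rw [Function.update_self]
      exact hx1 _
    · rw [Function.update_of_ne hi]
      exact hx0 i
  have hxxn : ∀ j i, xx j i ≠ 0 := fun j i => by
    obtain ⟨l, hl⟩ := hxx j i
    rw [hl]
    exact hT i l
  refine ⟨hpos, fun j => GI T D0 (xx j) / (∏ j, t j) ^ N, div_ne_zero (hGI0 _ (hxxn 0))
    (pow_ne_zero _ hpt), ?_, ?_⟩
  · intro j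
    have h1 : GI T D0 (xx j.succ) = GI T D0 (xx 0) * t j := by
      change GI T D0 (Function.update x0 (ix j) (x1 (ix j))) = GI T D0 x0 * t j
      unfold GI
      rw [← Finset.mul_prod_erase Finset.univ _ (Finset.mem_univ (ix j)),
        ← Finset.mul_prod_erase Finset.univ (fun i => eta D0 (T i) ^ (m i + 2) *
          (∏ j, T i j) * x0 i) (Finset.mem_univ (ix j))]
      have h2 : ∏ x ∈ Finset.univ.erase (ix j), (eta D0 (T x) ^ (m x + 2) * (∏ j, T x j) *
          Function.update x0 (ix j) (x1 (ix j)) x)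
          = ∏ x ∈ Finset.univ.erase (ix j), (eta D0 (T x) ^ (m x + 2) * (∏ j, T x j) * x0 x) := by
        refine Finset.prod_congr rfl fun x hx => ?_
        rw [Function.update_of_ne (Finset.ne_of_mem_erase hx)]
      rw [h2, Function.update_self, ht j]
      have := hx0n (ix j)
      field_simp
    change GI T D0 (xx j.succ) / (∏ j, t j) ^ N / (GI T D0 (xx 0) / (∏ j, t j) ^ N) = t j
    rw [h1]
    have h3 := hGI0 (xx 0) (hxxn 0)
    field_simp
  · intro P D
    -- a member of minimal order in each circuit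
    have hmin : ∀ i, ∃ b' : Fin (m i + 1), ∀ j, P.ord (T i b') ≤ P.ord (T i j) := fun i =>
      Finite.exists_min _
    choose b' hb' using hmin
    have hkey : ∀ (x : I → K),
        GI T D0 x / (∏ j, t j) ^ N * (Matrix.of fun i j => D i (t j)).det ^ N
          = GI T (con t lam D) x := by
      intro x
      have h1 : ∀ v ∈ L, con t lam D v = (lmat t D).det * D0 v := by
        intro v hv
        have h2 := hv (con t lam D - (lmat t D).det • D0) (fun l => by
          rw [Derivation.sub_apply, con_t t lam D ht0 l, Derivation.coe_smul, Pi.smul_apply, hD0,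
            smul_eq_mul]
          ring)
        rw [Derivation.sub_apply, Derivation.coe_smul, Pi.smul_apply, smul_eq_mul, sub_eq_zero]
          at h2
        exact h2
      have h2 : (Matrix.of fun i j => D i (t j)).det = (∏ j, t j) * (lmat t D).det := by
        rw [← Matrix.det_mul_row]
        congr 1
        ext i j
        simp only [Matrix.of_apply, lmat]
        have := ht0 j
        field_simp
      rw [GI_agree T hT (con t lam D) D0 (lmat t D).det L hL h1 (fun i j D' hD' => hTL D' hD' i j),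
        h2, mul_pow, ← hN]
      field_simp
    refine ⟨fun hD j => ?_, fun hP hD j => ?_⟩
    · unfold form
      rw [hkey, reg_iff_ge]
      have h1 := ge_GI T (E := con t lam D) hT hb' (ε := 0) (fun i => by
        have hE : ∀ x : K, x ≠ 0 → Ge P (-0) (con t lam D x / x) := fun x hx => by
          rw [neg_zero]
          exact con_log t lam D hD x
        exact eta_log hE (hT i) (hsum i) (b' i)) (hxx j)
      refine h1.mono ?_
      rw [zero_mul, sub_zero]
      exact Finset.sum_nonneg fun i _ => Finset.sum_nonneg fun j _ => sub_nonneg.2 (hb' i j)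
    · unfold form
      rw [hkey, reg_iff_ge]
      rcases hP with hall | ⟨i0, j0, l0, hij⟩
      · have ht0' : ∀ j, P.ord (t j) = 0 := by
          intro j
          obtain ⟨j1, hj1⟩ := hx1 (ix j)
          obtain ⟨j2, hj2⟩ := hx0 (ix j)
          rw [ht, hj1, hj2, P.ord_div (hT _ _) (hT _ _), hall (ix j) j1 j2, sub_self]
        have hE := con_reg t lam D hD ht0 ht0'
        have h1 := ge_GI T (E := con t lam D) hT hb' (ε := 0) (fun i => by
          rw [zero_mul, sub_zero]
          exact eta_reg hE (hT i) (hsum i) (b' i) (fun j => hall i j _)) (hxx j)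
        refine h1.mono ?_
        rw [zero_mul, sub_zero]
        exact Finset.sum_nonneg fun i _ => Finset.sum_nonneg fun j _ => sub_nonneg.2 (hb' i j)
      · have h1 := ge_GI T (E := con t lam D) hT hb' (ε := 1) (fun i => by
          have hE : ∀ x : K, x ≠ 0 → Ge P (-1) (con t lam D x / x) := fun x hx =>
            con_pole t lam D hD ht0 hx
          exact eta_log hE (hT i) (hsum i) (b' i)) (hxx j)
        refine h1.mono ?_
        rw [one_mul]
        have h5 : ∃ j, (N : ℤ) ≤ P.ord (T i0 j) - P.ord (T i0 (b' i0)) := by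
          have e1 := hb' i0 j0
          have e2 := hb' i0 l0
          rcases abs_cases (P.ord (T i0 j0) - P.ord (T i0 l0)) with ⟨h, -⟩ | ⟨h, -⟩
          · exact ⟨j0, by linarith⟩
          · exact ⟨l0, by linarith⟩
        obtain ⟨j1, h2⟩ := h5
        have h3 : P.ord (T i0 j1) - P.ord (T i0 (b' i0))
            ≤ ∑ i, ∑ j, (P.ord (T i j) - P.ord (T i (b' i))) := by
          refine le_trans ?_ (Finset.single_le_sum
            (f := fun i => ∑ j, (P.ord (T i j) - P.ord (T i (b' i))))
            (fun i _ => Finset.sum_nonneg fun j _ => sub_nonneg.2 (hb' i j)) (Finset.mem_univ i0))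
          exact Finset.single_le_sum (f := fun j => P.ord (T i0 j) - P.ord (T i0 (b' i0)))
            (fun j _ => sub_nonneg.2 (hb' i0 j)) (Finset.mem_univ j1)
        linarith

/-- **The forms of a class of families.** Either there is a form of some degree `h > 0` whose
powers have sections with independent ratios, or all ratios are constant. -/
theorem forms_fam [IsAlgClosed k] [CharZero k] {w : ℕ} (htr : Algebra.trdeg k K = w)
    (G : CFam k K → Prop) {Bd : Place k K → Prop} {N s c : ℕ} (hG : ∀ A, G A → A.Ok Bd N s c)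
    (hN : w * (c * ((s + 1) * tn (s - 1))) ≤ N) :
    (∃ (h M : ℕ) (t : Fin h → K) (g : Fin (h + 1) → K), 0 < h ∧ 0 < M ∧
      (h ≤ w ∧ M ≤ w * (c * ((s + 1) * tn (s - 1)))) ∧ AlgebraicIndependent k t ∧ g 0 ≠ 0 ∧ (∀ i : Fin h, g i.succ / g 0 = t i) ∧
      ∀ (P : Place k K) (D : Fin h → Derivation k K K),
        ((∀ i, DerLog P (D i)) → ∀ j, P.Reg (form t M (g j) D)) ∧
        (¬ Bd P → (∀ i, DerReg P (D i)) → ∀ j, P.Reg (form t M (g j) D))) ∨
    ∀ A, G A → ∀ i a b, ∃ c : k, A.T i a / A.T i b = algebraMap k K c := by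
  classical
  let S1 : Set K := {x | ∃ A : CFam k K, G A ∧ ∃ i a b, x = A.T i a / A.T i b}
  obtain ⟨h, p, t, u, hw, ht, -, hbasis, hkill⟩ := basis_pick (k := k) (K := K) htr S1
    Set.univ (by
      rw [IntermediateField.adjoin_univ]
      exact ⟨fun x => isAlgebraic_algebraMap (A := K)
        (⟨x, trivial⟩ : (⊤ : IntermediateField k K))⟩)
  rcases Nat.eq_zero_or_pos h with h0 | h0
  · subst h0
    right
    intro A hA i a b
    exact const_of_all htr fun D => hkill D (fun i => i.elim0) _ ⟨A, hA, i, a, b, rfl⟩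
  · left
    choose A hA i a b hab using ht
    let F : CFam k K := CFam.sigma A
    have hF : F.Ok Bd N s (∑ _j : Fin h, c) := CFam.sigma_ok fun j => hG _ (hA j)
    let _ : Fintype F.I := F.fin
    let y0 : F.I → K := fun x => if x.2 = i x.1 then (A x.1).T (i x.1) (b x.1) else F.T x 0
    let y1 : F.I → K := fun x => if x.2 = i x.1 then (A x.1).T (i x.1) (a x.1) else F.T x 0
    have hy0 : ∀ x, ∃ j, y0 x = F.T x j := by
      rintro ⟨j, x⟩
      by_cases hx : x = i j
      · subst hx
        refine ⟨b j, ?_⟩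
        simp only [y0, if_true]
        rfl
      · exact ⟨0, by simp only [y0]; rw [if_neg hx]⟩
    have hy1 : ∀ x, ∃ j, y1 x = F.T x j := by
      rintro ⟨j, x⟩
      by_cases hx : x = i j
      · subst hx
        refine ⟨a j, ?_⟩
        simp only [y1, if_true]
        rfl
      · exact ⟨0, by simp only [y1]; rw [if_neg hx]⟩
    obtain ⟨hpos, g, h1, h2, h3⟩ := coreI (m := F.m) F.T h0 F.ne F.sum F.lin
      (fun j => (⟨j, i j⟩ : F.I)) hy0 hy1 t (fun j => by
        simp only [y0, y1, if_true]
        exact hab j) u hbasis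
      (fun D hD x j => hkill D hD _ ⟨A x.1, hA x.1, x.2, j, 0, rfl⟩)
    have hwt' : wtI F.m ≤ w * (c * ((s + 1) * tn (s - 1))) := by
      unfold wtI
      calc ∑ x, (F.m x + 2) * tn (F.m x) ≤ ∑ _x : F.I, (s + 1) * tn (s - 1) := by
            refine Finset.sum_le_sum fun x _ => ?_
            have h3 := hF.sz x
            exact Nat.mul_le_mul (by omega) (tn_mono (by omega))
        _ = Fintype.card F.I * ((s + 1) * tn (s - 1)) := by simp
        _ ≤ (h * c) * ((s + 1) * tn (s - 1)) := by
            refine Nat.mul_le_mul_right _ ?_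
            have h3 := hF.card
            simpa using h3
        _ ≤ (w * c) * ((s + 1) * tn (s - 1)) :=
            Nat.mul_le_mul_right _ (Nat.mul_le_mul_right _ (by omega))
        _ = w * (c * ((s + 1) * tn (s - 1))) := by ring
    have hwt : wtI F.m ≤ N := hwt'.trans hN
    refine ⟨h, wtI F.m, t, g, h0, hpos, ⟨by omega, hwt'⟩,
      hbasis.1.comp Sum.inl Sum.inl_injective, h1, h2,
      fun P D => ⟨(h3 P D).1, fun hP => (h3 P D).2 ?_⟩⟩
    rcases hF.dich P hP with h | ⟨i, j, l, h⟩
    · exact Or.inl h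
    · exact Or.inr ⟨i, j, l, le_trans (by exact_mod_cast hwt) h⟩

theorem dform_ne [CharZero k] {w : ℕ} (htr : Algebra.trdeg k K = w) {h : ℕ} {t : Fin h → K}
    (ht : AlgebraicIndependent k t) : ∃ D : Fin h → Derivation k K K, dform t D = 1 := by
  classical
  obtain ⟨B, hB1, hB2⟩ := exists_isTranscendenceBasis_superset (R := k) (A := K)
    (s := Set.range t) ht.coe_range
  have hder : ∀ i : Fin h, ∃ D : Derivation k K K, ∀ j, D (t j) = if i = j then 1 else 0 := by
    intro i
    have htm : ∀ j, t j ∈ B := fun j => hB1 ⟨j, rfl⟩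
    have hcard : Cardinal.mk B = (w : Cardinal) := by
      rw [← htr]
      exact hB2.cardinalMk_eq_trdeg
    have hfin : Finite B := by
      rw [← Cardinal.lt_aleph0_iff_finite, hcard]
      exact Cardinal.natCast_lt_aleph0
    have := Fintype.ofFinite B
    obtain ⟨D, hD⟩ := exists_der (fun b : B => (b : K)) hB2
      (fun b => if (b : K) = t i then 1 else 0)
    refine ⟨D, fun j => ?_⟩
    have h1 := hD ⟨t j, htm j⟩
    simp only at h1
    rw [h1]
    by_cases hij : i = j
    · rw [hij, if_pos rfl, if_pos rfl]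
    · rw [if_neg (fun h => hij (ht.injective h).symm), if_neg hij]
  choose D hD using hder
  refine ⟨D, ?_⟩
  rw [dform_apply]
  have h2 : (Matrix.of fun i j => D i (t j)) = 1 := by
    ext i j
    rw [Matrix.of_apply, hD, Matrix.one_apply]
  rw [h2, Matrix.det_one]

/-- **Special fields.** -/
theorem const_of_special [IsAlgClosed k] [CharZero k] {w : ℕ} (htr : Algebra.trdeg k K = w)
    (G : CFam k K → Prop) {Bd : Place k K → Prop} {N s c : ℕ} (hG : ∀ A, G A → A.Ok Bd N s c)
    (hN : w * (c * ((s + 1) * tn (s - 1))) ≤ N) (hs : Special k K w Bd) :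
    ∀ A, G A → ∀ i a b, ∃ c : k, A.T i a / A.T i b = algebraMap k K c := by
  rcases forms_fam htr G hG hN with ⟨h, M, t, g, h0, hM, -, hind, hg0, hg, hP⟩ | h1
  · exfalso
    refine hs h h0 ⟨dform t, ?_, M, hM, g, fun P _ D hD j => (hP P D).1 hD j,
      fun P _ hPB D hD j => (hP P D).2 hPB hD j, hg0, ?_⟩
    · intro hθ
      obtain ⟨D, hD⟩ := dform_ne htr hind
      rw [hθ] at hD
      simp at hD
    · simp only [hg]
      exact hind
  · exact h1

end Pool.Agent.TH710.SP
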