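import Pool.Agent.W602.GT.SpecDefs
import Pool.Agent.W602.GT.MordDefs

/-!
Definitions: the points of quasi-projective varieties with the classical topology, entire curves,
linear spaces and complements of hyperplanes in them, tensor differentials.
-/

set_option autoImplicit false

open FF MvPolynomial Pool.Agent.W602.GT

namespace Pool.Agent.TH710.SP

variable {n : ℕ} {κ : Type}

/-- The complex projective space `P^n`, as a set; its topology is the quotient topology. -/
def CP (n : ℕ) : Type := Projectivization ℂ (Fin (n + 1) → ℂ)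

/-- the point of `P^n` with homogeneous coordinates `x` -/
noncomputable def mkP (x : {x : Fin (n + 1) → ℂ // x ≠ 0}) : CP n := Projectivization.mk ℂ x.1 x.2

/-- the quotient topology -/
noncomputable instance (n : ℕ) : TopologicalSpace (CP n) := TopologicalSpace.coinduced mkP inferInstance

/-- The points of the projective variety with generic point `y`, as a subset of `P^n`. -/
def VPts {K : Type} [Field K] [Algebra ℂ K] (y : Fin (n + 1) → K) : Set (CP n) :=
  {p | ∃ x : {x : Fin (n + 1) → ℂ // x ≠ 0}, mkP x = p ∧ x.1 ∈ VarPts ℂ y}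

/-- The points of the quasi-projective variety `V \ {Q_j = 0 for some j}`, where `V` is the
projective variety with generic point `y`, as a subset of `P^n`. -/
def XPts {K : Type} [Field K] [Algebra ℂ K] (Q : κ → MvPolynomial (Fin (n + 1)) ℂ)
    (y : Fin (n + 1) → K) : Set (CP n) :=
  {p | ∃ x : {x : Fin (n + 1) → ℂ // x ≠ 0}, mkP x = p ∧ x.1 ∈ VarPts ℂ y ∧
    ∀ j, val x.1 (Q j) ≠ 0}

/-- `f` is an entire curve in the quasi-projective variety `V \ {Q_j = 0 for some j}`, where `V` is
the projective variety with generic point `y`, with Zariski-dense image. -/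
def DenseCurve {K : Type} [Field K] [Algebra ℂ K] (Q : κ → MvPolynomial (Fin (n + 1)) ℂ)
    (y : Fin (n + 1) → K) (f : ℂ → Fin (n + 1) → ℂ) : Prop :=
  Differentiable ℂ f ∧ (∀ z, f z ∈ VarPts ℂ y ∧ ∀ j, val (f z) (Q j) ≠ 0) ∧
    ∀ G : MvPolynomial (Fin (n + 1)) ℂ, IsForm G → (∀ z, val (f z) G = 0) → val y G = 0

/-- The projective variety `V` with generic point `y` is a linear subspace: it contains all linear
combinations of its points. -/
def IsLinear (k : Type) [Field k] {K : Type} [Field K] [Algebra k K] (y : Fin (n + 1) → K) :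
    Prop :=
  ∀ a ∈ VarPts k y, ∀ b ∈ VarPts k y, ∀ c c' : k, c • a + c' • b ≠ 0 →
    c • a + c' • b ∈ VarPts k y

/-- `V` is a linear subspace, and there are linear forms `l 0, ..., l (q - 1)`, linearly independent
on `V`, such that each `Q j` is a constant multiple of a power of one of them on `V`, and each `l b`
occurs. So `V \ {Q_j = 0 for some j}` is the complement of `q` linearly independent hyperplanes in
the linear space `V`. -/
def IndependentHyperplanes {K : Type} [Field K] [Algebra ℂ K]
    (Q : κ → MvPolynomial (Fin (n + 1)) ℂ) (y : Fin (n + 1) → K) : Prop :=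
  IsLinear ℂ y ∧ ∃ (q : ℕ) (l : Fin q → Fin (n + 1) → ℂ) (a : κ → Fin q) (c : κ → ℂ),
    LinearIndependent ℂ (fun b => ∑ i, algebraMap ℂ K (l b i) * y i) ∧
    Function.Surjective a ∧ (∀ j, c j ≠ 0) ∧
    ∀ j, ∀ x ∈ VarPts ℂ y, val x (Q j) = c j * (∑ i, l (a j) i * x i) ^ (Q j).totalDegree

/-- There are no holomorphic tensor differentials of degree `1, ..., B` on the smooth projective
varieties of dimension `w` with function field `K`: for `1 ≤ r ≤ B`, each `K`-multilinear function
of `r` rational vector fields, whose values on vector fields regular at `P` are regular at `P` for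
all prime divisors `P`, is zero. -/
def NoTensors (k K : Type) [Field k] [Field K] [Algebra k K] (w B : ℕ) : Prop :=
  ∀ r : ℕ, 1 ≤ r → r ≤ B → ∀ ω : MultilinearMap K (fun _ : Fin r => Derivation k K K) K,
    (∀ P : Place k K, Divisorial w P → ∀ D : Fin r → Derivation k K K, (∀ j, DerReg P (D j)) →
      P.Reg (ω D)) → ω = 0

end Pool.Agent.TH710.SP
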