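import Pool.Agent.TH710.SP.Main
import Pool.Agent.TH710.SP.Defs
import Pool.Agent.TH710.NW.Line

/-!
Nested varieties with a Zariski-dense entire curve are linear spaces, with independent hyperplanes
as boundary.
-/

set_option autoImplicit false

open FF MvPolynomial Pool.Agent.W603.LV Pool.Agent.W603.GR Pool.Agent.W603.GW
  Pool.Agent.W602.GT Pool.Agent.W603.GX Pool.Agent.W603.GY Pool.Agent.TH710.ND

namespace Pool.Agent.TH710.SP

variable {n : ℕ} {ι κ : Type}

theorem gate_iff {L : List (ℕ × ℕ)} : ∀ {p : MvPolynomial (Fin (n + 1)) ℂ},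
    GateL IsLin L p → NW.Gate L p := by
  induction L with
  | nil =>
    rintro p ⟨a, rfl⟩
    exact ⟨a, rfl⟩
  | cons ke L ih =>
    rintro p ⟨c, g, hg, rfl⟩
    exact ⟨c, g, fun i => ih (hg i), rfl⟩

theorem bnd_ge {s H : ℕ} (hn : 1 ≤ n) (hs : 1 ≤ s) : s ^ 2 ≤ bnd n s H ∧
    (2 * s - 1) ^ 2 ≤ bnd n s H := by
  obtain ⟨t, rfl⟩ : ∃ t, s = t + 1 := ⟨s - 1, by omega⟩
  rcases Nat.eq_zero_or_pos t with rfl | ht
  · unfold bnd
    constructor
    · rw [zero_add, one_pow]
      omega
    · have : (2 * (0 + 1) - 1) ^ 2 = 1 := by norm_num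
      rw [this]
      omega
  · have h1 : 1 ≤ tn (2 * (t + 1) - 1) := by
      have h2 := tn_mono (m := 2) (s := 2 * (t + 1) - 1) (by omega)
      have h3 : tn 2 = 1 := by
        unfold tn
        simp
      omega
    have h4 : (2 * (t + 1)) * (2 * (t + 1)) ≤ bnd n (t + 1) H := by
      unfold bnd
      have h5 : 1 ≤ (2 * (t + 1) + 1) * tn (2 * (t + 1) - 1) :=
        Nat.mul_pos (by omega) h1
      have h6 : 2 * (t + 1) * (2 * (t + 1)) ≤ (H + 1) * (2 * (t + 1) * (2 * (t + 1))) :=
        Nat.le_mul_of_pos_left _ (by omega)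
      have h7 : (H + 1) * (2 * (t + 1) * (2 * (t + 1))) ≤
          (H + 1) * (2 * (t + 1) * (2 * (t + 1))) * ((2 * (t + 1) + 1) * tn (2 * (t + 1) - 1)) :=
        Nat.le_mul_of_pos_right _ h5
      have h8 : (H + 1) * (2 * (t + 1) * (2 * (t + 1))) * ((2 * (t + 1) + 1) *
          tn (2 * (t + 1) - 1)) ≤ n * ((H + 1) * (2 * (t + 1) * (2 * (t + 1))) *
          ((2 * (t + 1) + 1) * tn (2 * (t + 1) - 1))) := Nat.le_mul_of_pos_left _ (by omega)
      omega
    constructor
    · refine le_trans ?_ h4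
      rw [pow_two]
      exact Nat.mul_le_mul (by omega) (by omega)
    · refine le_trans ?_ h4
      rw [pow_two]
      exact Nat.mul_le_mul (by omega) (by omega)

theorem tower_of_nested (hn : 1 ≤ n) {s N H : ℕ} (hN : bnd n s H ≤ N)
    {F : MvPolynomial (Fin (n + 1)) ℂ} (hF : IsNested s N H F) : NW.Tower F := by
  obtain ⟨r, e, L, c, g, hr, he, -, hL, hg, rfl⟩ := hF
  have hb1 : 1 ≤ bnd n s H := by unfold bnd; omega
  refine ⟨r, e, L, c, g, by omega, ?_, ?_, fun i => gate_iff (hg i), rfl⟩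
  · rcases Nat.eq_zero_or_pos s with h0 | h0
    · have : r = 0 := by omega
      subst this
      have : (0 - 1) ^ 2 = 0 := by norm_num
      rw [this]
      omega
    · refine le_trans ?_ ((bnd_ge (H := H) hn h0).1.trans (hN.trans he))
      exact Nat.pow_le_pow_left (by omega) 2
  · intro ke hke
    obtain ⟨h1, h2, h3⟩ := hL ke hke
    refine ⟨h1, ?_⟩
    refine le_trans ?_ ((bnd_ge (H := H) hn (h1.trans h2)).2.trans (hN.trans h3))
    exact Nat.pow_le_pow_left (by omega) 2

theorem towerLog_of_nested (hn : 1 ≤ n) {s N H : ℕ} (hN : bnd n s H ≤ N)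
    {Q : MvPolynomial (Fin (n + 1)) ℂ} (hQ : IsNested s N H Q) (h0 : Q ≠ 0) :
    NW.TowerLog Q Q.totalDegree := by
  obtain ⟨r, e, L, c, g, hr, he, hlen, hL, hg, hQe⟩ := hQ
  have hb1 : 1 ≤ bnd n s H := by unfold bnd; omega
  refine ⟨r, e, L, c, g, by omega, ?_, ?_, fun i => gate_iff (hg i), hQe, ?_⟩
  · rcases Nat.eq_zero_or_pos s with h0 | h0
    · have : r = 0 := by omega
      subst this
      simp
    · refine le_trans ?_ ((bnd_ge (H := H) hn h0).1.trans (hN.trans he))
      exact Nat.pow_le_pow_left (by omega) 2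
  · intro ke hke
    obtain ⟨h1, h2, h3⟩ := hL ke hke
    refine ⟨h1, ?_⟩
    refine le_trans ?_ ((bnd_ge (H := H) hn (h1.trans h2)).2.trans (hN.trans h3))
    exact Nat.pow_le_pow_left (by omega) 2
  · have hgate : GateL IsLin ((r, e) :: L) Q := ⟨c, g, hg, hQe⟩
    have h1 := (gate_hom hgate).totalDegree h0
    rw [h1, List.map_cons, List.prod_cons]

theorem val_eval (x : Fin (n + 1) → ℂ) (G : MvPolynomial (Fin (n + 1)) ℂ) :
    Pool.Agent.W602.GT.val x G = eval x G := by
  unfold Pool.Agent.W602.GT.val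
  rw [aeval_eq_eval]

/-- functionals with given values -/
theorem exists_functional (f : ℂ → Fin (n + 1) → ℂ) (x : Fin (n + 1) → ℂ)
    (h : ∀ l : Fin (n + 1) → ℂ, (∀ z, ∑ i, l i * f z i = 0) → ∑ i, l i * x i = 0) :
    ∃ Φ : (ℂ → ℂ) →ₗ[ℂ] ℂ, ∀ i, Φ (fun z => f z i) = x i := by
  classical
  have hmem : x ∈ Submodule.span ℂ (Set.range f) := by
    by_contra hcon
    obtain ⟨φ, hφ, hφ2⟩ := Submodule.exists_le_ker_of_notMem hcon
    have hφsum : ∀ w : Fin (n + 1) → ℂ, φ w = ∑ j, φ (Pi.single j 1) * w j := by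
      intro w
      have h1 : w = ∑ j, w j • (Pi.single j (1 : ℂ) : Fin (n + 1) → ℂ) := by
        funext k
        rw [Finset.sum_apply, Finset.sum_eq_single k]
        · simp
        · intro j _ hj
          simp [hj.symm]
        · simp
      conv_lhs => rw [h1]
      rw [map_sum]
      refine Finset.sum_congr rfl fun j _ => ?_
      rw [map_smul, smul_eq_mul, mul_comm]
    apply hφ
    rw [hφsum]
    refine h (fun j => φ (Pi.single j 1)) fun z => ?_
    rw [← hφsum]
    exact hφ2 (Submodule.subset_span ⟨z, rfl⟩)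
  obtain ⟨s, hs⟩ := Finsupp.mem_span_range_iff_exists_finsupp.mp hmem
  refine ⟨s.sum fun z c => c • LinearMap.proj z, fun i => ?_⟩
  rw [← hs]
  simp only [Finsupp.sum, LinearMap.sum_apply, LinearMap.smul_apply, LinearMap.proj_apply,
    smul_eq_mul, Finset.sum_apply, Pi.smul_apply]

section curve

variable {K : Type} [Field K] [Algebra ℂ K] {Q : κ → MvPolynomial (Fin (n + 1)) ℂ}
  {y : Fin (n + 1) → K} {f : ℂ → Fin (n + 1) → ℂ}

theorem DenseCurve.lin_iff (hf : DenseCurve Q y f) (l : Fin (n + 1) → ℂ) :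
    lin l y = 0 ↔ ∀ z, lin l (f z) = 0 := by
  have hform : IsForm (∑ j, C (l j) * X j : MvPolynomial (Fin (n + 1)) ℂ) := ⟨1, by
    apply IsHomogeneous.sum
    intro j _
    have := (isHomogeneous_C (Fin (n + 1)) (l j)).mul (isHomogeneous_X ℂ j)
    simpa using this⟩
  have e1 : ∀ {M : Type} [Field M] [Algebra ℂ M] (x : Fin (n + 1) → M),
      Pool.Agent.W602.GT.val x (∑ j, C (l j) * X j : MvPolynomial (Fin (n + 1)) ℂ) = lin l x := by
    intro M _ _ x
    unfold Pool.Agent.W602.GT.val
    exact aeval_lin l x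
  constructor
  · intro h z
    rw [← e1] at h ⊢
    exact ((hf.2.1 z).1).2 _ hform h
  · intro h
    rw [← e1]
    exact hf.2.2 _ hform fun z => by rw [e1]; exact h z

theorem lin_sub' {M : Type} [Field M] [Algebra ℂ M] (l l' : Fin (n + 1) → ℂ) (c : ℂ)
    (x : Fin (n + 1) → M) : lin (l - c • l') x = lin l x - algebraMap ℂ M c * lin l' x := by
  unfold lin
  simp only [Pi.sub_apply, Pi.smul_apply, smul_eq_mul, map_sub, map_mul, sub_mul,
    Finset.sum_sub_distrib, Finset.mul_sum, mul_assoc]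

theorem lin_smul_left {M : Type} [Field M] [Algebra ℂ M] (l : Fin (n + 1) → ℂ) (c : ℂ)
    (x : Fin (n + 1) → M) : lin (c • l) x = c • lin l x := by
  change ∑ i, algebraMap ℂ M (c * l i) * x i = c • ∑ i, algebraMap ℂ M (l i) * x i
  rw [Algebra.smul_def, Finset.mul_sum]
  refine Finset.sum_congr rfl fun i _ => ?_
  rw [map_mul, mul_assoc]

theorem lin_sum_left {M : Type} [Field M] [Algebra ℂ M] {α : Type} (S : Finset α)
    (l : α → Fin (n + 1) → ℂ) (x : Fin (n + 1) → M) :
    lin (∑ a ∈ S, l a) x = ∑ a ∈ S, lin (l a) x := by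
  unfold lin
  rw [Finset.sum_comm]
  refine Finset.sum_congr rfl fun i _ => ?_
  rw [Finset.sum_apply, map_sum, Finset.sum_mul]

/-- **Nested varieties with a Zariski-dense entire curve.** -/
theorem lin_of_curve [Finite κ] (hn : 1 ≤ n) {F : ι → MvPolynomial (Fin (n + 1)) ℂ} {s N H : ℕ}
    (hF : ∀ i, IsNested s N H (F i)) (hQ : ∀ j, IsNested s N H (Q j)) (hN : bnd n s H ≤ N)
    {w : ℕ} (hy : SubVarQ F Q K w y) (hcomp : IsComponentQ F Q y) (hf : DenseCurve Q y f) :
    ∃ (r q : ℕ) (m v : Fin r → Fin (n + 1) → ℂ) (e : Fin q → Fin r) (a : κ → Fin q) (c : κ → ℂ),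
      LinPair Q y m v e a c := by
  classical
  have hN1 : 1 ≤ N := le_trans (by unfold bnd; omega) hN
  have hQne : ∀ j, Q j ≠ 0 := by
    intro j h0
    apply hy.off j
    rw [h0]
    unfold Pool.Agent.W602.GT.val
    rw [map_zero]
  have hdpos : ∀ j, 0 < (Q j).totalDegree := fun j => nested_pos (hQ j) hN1 (hQne j)
  have hfd := hf.1
  have hfj : ∀ j, Differentiable ℂ (fun z => f z j) := fun j => by
    rw [differentiable_pi] at hfd
    exact hfd j
  have hlind : ∀ l : Fin (n + 1) → ℂ, Differentiable ℂ (fun z => lin l (f z)) := by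
    intro l
    unfold lin
    apply Differentiable.fun_sum
    intro i _
    exact (hfj i).const_mul _
  -- functionals
  have hfun : ∀ x ∈ Hull ℂ y, ∃ Φ : (ℂ → ℂ) →ₗ[ℂ] ℂ, ∀ i, Φ (fun z => f z i) = x i := by
    intro x hx
    refine exists_functional f x fun l hl => ?_
    exact hx l ((hf.lin_iff l).2 hl)
  have hFf : ∀ z i, eval (f z) (F i) = 0 := by
    intro z i
    rw [← val_eval]
    exact (hf.2.1 z).1.2 _ (hF i).form (hy.mem i)
  have hFx : ∀ x ∈ Hull ℂ y, ∀ i, Pool.Agent.W602.GT.val x (F i) = 0 := by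
    intro x hx i
    obtain ⟨Φ, hΦ⟩ := hfun x hx
    have h1 := (tower_of_nested hn hN (hF i)).estab f hfd (fun z => hFf z i) Φ
    rw [val_eval, ← h1]
    congr 2
    funext j
    exact (hΦ j).symm
  -- roots of the boundary functions
  have hroot : ∀ j, ∃ r : ℂ → ℂ, Differentiable ℂ r ∧
      ∀ z, r z ^ (Q j).totalDegree = eval (f z) (Q j) := fun j =>
    Pool.Agent.H159R3.Toric.root _ (NW.eval_diff hfj (Q j)) (fun z => by
      rw [← val_eval]
      exact (hf.2.1 z).2 j) (hdpos j)
  choose r hr hrQ using hroot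
  have hlog : ∀ j (Φ : (ℂ → ℂ) →ₗ[ℂ] ℂ), eval (fun i => Φ (fun z => f z i)) (Q j) =
      Φ (r j) ^ (Q j).totalDegree := fun j Φ =>
    (towerLog_of_nested hn hN (hQ j) (hQne j)).estab f (r j) hfd (hr j) (hrQ j) Φ
  have hrlin : ∀ j, ∃ l : Fin (n + 1) → ℂ, r j = fun z => lin l (f z) := by
    intro j
    have hmem : r j ∈ Submodule.span ℂ (Set.range fun i => fun z => f z i) := by
      by_contra hcon
      obtain ⟨φ, hφ, hφ2⟩ := Submodule.exists_le_ker_of_notMem hcon
      have h1 := hlog j φ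
      have h2 : (fun i => φ (fun z => f z i)) = (fun _ => 0 : Fin (n + 1) → ℂ) := by
        funext i
        exact hφ2 (Submodule.subset_span ⟨i, rfl⟩)
      have h3 := hlog j 0
      have h4 : (fun i => (0 : (ℂ → ℂ) →ₗ[ℂ] ℂ) (fun z => f z i)) =
          (fun _ => 0 : Fin (n + 1) → ℂ) := by
        funext i
        rfl
      rw [h4] at h3
      rw [h2, h3, LinearMap.zero_apply, zero_pow (hdpos j).ne'] at h1
      exact pow_ne_zero _ hφ h1.symm
    obtain ⟨l, hl⟩ := (Submodule.mem_span_range_iff_exists_fun ℂ).1 hmem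
    refine ⟨l, ?_⟩
    rw [← hl]
    funext z
    rw [Finset.sum_apply, lin_base]
    rfl
  choose lq hlq using hrlin
  have hr0 : ∀ j z, lin (lq j) (f z) ≠ 0 := by
    intro j z h0
    apply (hf.2.1 z).2 j
    rw [val_eval, ← hrQ, hlq]
    simp only
    rw [h0, zero_pow (hdpos j).ne']
  have hlq0 : ∀ j, lin (lq j) y ≠ 0 := by
    intro j h0
    exact hr0 j 0 ((hf.lin_iff _).1 h0 0)
  refine lin_fin hy hcomp hdpos lq hlq0 hFx (fun _ => 1) (fun _ => one_ne_zero) ?_ ?_
  · intro j x hx
    obtain ⟨Φ, hΦ⟩ := hfun x hx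
    have h1 := hlog j Φ
    have h2 : (fun i => Φ (fun z => f z i)) = x := funext hΦ
    rw [h2] at h1
    rw [val_eval, h1, one_mul]
    congr 1
    rw [hlq j, lin_base]
    have h3 : (fun z => lin (lq j) (f z)) = ∑ i, lq j i • (fun z => f z i) := by
      funext z
      rw [Finset.sum_apply, lin_base]
      rfl
    rw [h3, map_sum]
    refine Finset.sum_congr rfl fun i _ => ?_
    rw [map_smul, hΦ, smul_eq_mul]
  · -- circuits have constant ratios
    intro m T hT hsum hlin a b
    choose c j hc hTj using hT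
    let l' : Fin (m + 1) → Fin (n + 1) → ℂ := fun a => c a • lq (j a)
    have hTl : ∀ a, T a = lin (l' a) y := fun a => by
      rw [hTj, ← lin_smul_left]
    let R : Fin (m + 1) → ℂ → ℂ := fun a z => lin (l' a) (f z)
    have hR0 : ∀ a z, R a z ≠ 0 := by
      intro a z
      simp only [R, l']
      rw [lin_smul_left]
      exact smul_ne_zero (hc a) (hr0 _ _)
    obtain ⟨σ, hσ⟩ := Pool.Agent.H159R3.War.class_span R (fun a => hlind _) hR0 b
    let A : Finset (Fin (m + 1)) := Finset.univ.filter fun a => ∃ α : ℂ, ∀ z, R a z = α * R b z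
    have hzero : ∀ z, ∑ a, R a z = 0 := by
      have h1 : lin (∑ a, l' a) y = 0 := by
        rw [lin_sum_left, ← hsum]
        exact Finset.sum_congr rfl fun a _ => (hTl a).symm
      intro z
      have h2 := (hf.lin_iff _).1 h1 z
      rw [lin_sum_left] at h2
      exact h2
    have h0 : ∑ a ∈ A, R a 0 = 0 := by
      have h1 : ∑ a, (σ.sum fun z c => c * R a z) = 0 := by
        simp only [Finsupp.sum]
        rw [Finset.sum_comm]
        refine Finset.sum_eq_zero fun z _ => ?_
        rw [← Finset.mul_sum, hzero, mul_zero]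
      refine Eq.trans ?_ h1
      rw [Finset.sum_filter]
      refine Finset.sum_congr rfl fun a _ => ?_
      split_ifs with h2
      · exact ((hσ a).1 h2).symm
      · exact ((hσ a).2 h2).symm
    have hall : ∀ z, ∑ a ∈ A, R a z = 0 := by
      intro z
      have h1 : ∀ a ∈ A, R a z = R a 0 * (R b z / R b 0) := by
        intro a ha
        obtain ⟨α, hα⟩ := (Finset.mem_filter.1 ha).2
        rw [hα z, hα 0]
        have := hR0 b 0
        field_simp
      rw [Finset.sum_congr rfl h1, ← Finset.sum_mul, h0, zero_mul]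
    have hTA : ∑ a ∈ A, T a = 0 := by
      have h1 : lin (∑ a ∈ A, l' a) y = 0 := by
        rw [hf.lin_iff]
        intro z
        rw [lin_sum_left]
        exact hall z
      rw [lin_sum_left] at h1
      rw [← h1]
      exact Finset.sum_congr rfl fun a _ => hTl a
    have hbA : b ∈ A := Finset.mem_filter.2 ⟨Finset.mem_univ _, 1, fun z => by rw [one_mul]⟩
    -- a vanishing subsum which does not contain the last member is empty
    have hsub : ∀ B : Finset (Fin (m + 1)), ∑ a ∈ B, T a = 0 → Fin.last m ∉ B → B = ∅ := by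
      intro B hB hlast
      have h1 : ∑ l : Fin m, (if (Fin.last m).succAbove l ∈ B then (1 : ℂ) else 0) •
          T ((Fin.last m).succAbove l) = 0 := by
        have h2 : ∑ a, (if a ∈ B then (1 : ℂ) else 0) • T a = 0 := by
          rw [← hB, ← Finset.sum_filter_add_sum_filter_not Finset.univ (fun a => a ∈ B)]
          rw [Finset.sum_congr rfl (g := fun a => T a) (fun a ha => by
            rw [if_pos (Finset.mem_filter.1 ha).2, one_smul])]
          rw [Finset.sum_eq_zero (s := Finset.univ.filter fun a => a ∉ B) (fun a ha => by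
            rw [if_neg (Finset.mem_filter.1 ha).2, zero_smul]), add_zero]
          exact Finset.sum_congr (by ext; simp) fun _ _ => rfl
        rw [Fin.sum_univ_succAbove _ (Fin.last m), if_neg hlast, zero_smul, zero_add] at h2
        exact h2
      have h3 := Fintype.linearIndependent_iff.1 hlin _ h1
      by_contra hne
      obtain ⟨a, ha⟩ := Finset.nonempty_iff_ne_empty.2 hne
      have hal : a ≠ Fin.last m := fun h => hlast (h ▸ ha)
      obtain ⟨l, rfl⟩ := Fin.exists_succAbove_eq hal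
      have h4 := h3 l
      rw [if_pos ha] at h4
      exact one_ne_zero h4
    have hlastA : Fin.last m ∈ A := by
      by_contra hcon
      have h1 := hsub A hTA hcon
      rw [h1] at hbA
      exact absurd hbA (Finset.notMem_empty _)
    have hAc : Aᶜ = ∅ := by
      refine hsub _ ?_ (by simpa using hlastA)
      have h1 := Finset.sum_add_sum_compl A T
      rw [hTA, zero_add, hsum] at h1
      exact h1
    have haA : a ∈ A := by
      by_contra hcon
      have h1 : a ∈ Aᶜ := by simpa using hcon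
      rw [hAc] at h1
      exact absurd h1 (Finset.notMem_empty _)
    obtain ⟨α, hα⟩ := (Finset.mem_filter.1 haA).2
    refine ⟨α, ?_⟩
    have h1 : lin (l' a - α • l' b) y = 0 := by
      rw [hf.lin_iff]
      intro z
      rw [lin_sub', Algebra.algebraMap_self, RingHom.id_apply]
      exact sub_eq_zero.2 (hα z)
    rw [lin_sub', sub_eq_zero] at h1
    have hTb : T b ≠ 0 := by
      rw [hTj]
      exact smul_ne_zero (hc b) (hlq0 _)
    rw [div_eq_iff hTb, hTl, hTl, h1]

end curve

end Pool.Agent.TH710.SP
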