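import Pool.Agent.TH710.SP.Lin
import Pool.Agent.TH710.ND.MapsLgt

/-!
Special nested varieties are linear spaces, with independent hyperplanes as boundary.
-/

set_option autoImplicit false

open FF MvPolynomial Pool.Agent.W603.LV Pool.Agent.W603.GR Pool.Agent.W603.GW
  Pool.Agent.W602.GT Pool.Agent.W603.GX Pool.Agent.W603.GY Pool.Agent.TH710.ND

namespace Pool.Agent.TH710.SP

section comb

variable {k K : Type} [Field k] [Field K] [Algebra k K]

/-- vectors all of whose circuits are trivial -/
theorem indep_of_circ {κ : Type} [Finite κ] (S : κ → K) (hS : ∀ j, S j ≠ 0)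
    (hc : ∀ (m : ℕ) (T : Fin (m + 1) → K), (∀ a, ∃ (c : k) (j : κ), c ≠ 0 ∧ T a = c • S j) →
      ∑ a, T a = 0 → LinearIndependent k (fun l => T ((Fin.last m).succAbove l)) →
      ∀ a b, ∃ c : k, T a / T b = algebraMap k K c) :
    ∃ (q : ℕ) (e : Fin q → κ) (a : κ → Fin q), LinearIndependent k (fun b => S (e b)) ∧
      (∀ j, ∃ c : k, c ≠ 0 ∧ S j = c • S (e (a j))) := by
  classical
  obtain ⟨κ', e0, he0, hsp, hli⟩ := exists_linearIndependent' (K := k) S
  have hfin : Finite κ' := Finite.of_injective e0 he0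
  obtain ⟨q, ⟨ψ⟩⟩ := Finite.exists_equiv_fin κ'
  let e : Fin q → κ := fun b => e0 (ψ.symm b)
  have hli' : LinearIndependent k (fun b => S (e b)) := hli.comp ψ.symm ψ.symm.injective
  have hspan : ∀ j, ∃ c : Fin q → k, ∑ b, c b • S (e b) = S j := by
    intro j
    have h1 : S j ∈ Submodule.span k (Set.range (fun b => S (e b))) := by
      have h2 : Set.range (fun b => S (e b)) = Set.range (S ∘ e0) := by
        ext x
        constructor
        · rintro ⟨b, rfl⟩
          exact ⟨ψ.symm b, rfl⟩
        · rintro ⟨b, rfl⟩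
          exact ⟨ψ b, by simp [e]⟩
      rw [h2, hsp]
      exact Submodule.subset_span ⟨j, rfl⟩
    exact (Submodule.mem_span_range_iff_exists_fun k).1 h1
  choose c hcs using hspan
  have hone : ∀ j, ∃ a : Fin q, ∃ d : k, d ≠ 0 ∧ S j = d • S (e a) := by
    intro j
    have hne : ∃ a, c j a ≠ 0 := by
      by_contra hcon
      push Not at hcon
      apply hS j
      rw [← hcs j]
      exact Finset.sum_eq_zero fun b _ => by rw [hcon b, zero_smul]
    obtain ⟨a, ha⟩ := hne
    by_cases hall : ∀ b, b ≠ a → c j b = 0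
    · refine ⟨a, c j a, ha, ?_⟩
      rw [← hcs j, Finset.sum_eq_single a]
      · intro b _ hb
        rw [hall b hb, zero_smul]
      · intro h
        exact absurd (Finset.mem_univ _) h
    · exfalso
      push Not at hall
      obtain ⟨a', haa, ha'⟩ := hall
      obtain ⟨m, ⟨φ⟩⟩ := Finite.exists_equiv_fin {b : Fin q // c j b ≠ 0}
      let T : Fin (m + 1) → K := Fin.snoc (α := fun _ => K)
        (fun i => c j (φ.symm i).1 • S (e (φ.symm i).1)) (-S j)
      have hTc : ∀ i : Fin m, T (Fin.castSucc i) = c j (φ.symm i).1 • S (e (φ.symm i).1) :=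
        fun i => by simp only [T, Fin.snoc_castSucc]
      have hTl : T (Fin.last m) = -S j := by simp only [T, Fin.snoc_last]
      have h1 := hc m T (by
          intro i
          refine Fin.lastCases ?_ (fun i => ?_) i
          · exact ⟨-1, j, by simp, by rw [hTl, neg_smul, one_smul]⟩
          · exact ⟨_, _, (φ.symm i).2, hTc i⟩) (by
          rw [Fin.sum_univ_castSucc, hTl]
          simp only [hTc]
          rw [← hcs j, ← sub_eq_add_neg, sub_eq_zero]
          have h2 : ∑ b, c j b • S (e b) = ∑ b ∈ Finset.univ.filter (fun b => c j b ≠ 0),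
              c j b • S (e b) := by
            rw [Finset.sum_filter_of_ne]
            intro b _ hb h0
            exact hb (by rw [h0, zero_smul])
          rw [h2, Finset.sum_subtype (Finset.univ.filter fun b => c j b ≠ 0)
            (p := fun b => c j b ≠ 0) (by simp)]
          exact Equiv.sum_comp φ.symm (fun b : {b : Fin q // c j b ≠ 0} => c j b.1 • S (e b.1)))
        (by
          have h2 : (fun l => T ((Fin.last m).succAbove l)) =
              fun i => (Units.mk0 _ (φ.symm i).2 : kˣ) • S (e (φ.symm i).1) := by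
            funext i
            rw [Fin.succAbove_last, hTc]
            rfl
          rw [h2]
          have h3 := (hli'.comp (fun i : Fin m => (φ.symm i).1) (by
            intro i i' hii
            exact φ.symm.injective (Subtype.ext hii))).units_smul
            (fun i => (Units.mk0 _ (φ.symm i).2 : kˣ))
          exact h3)
        (Fin.castSucc (φ ⟨a, ha⟩)) (Fin.castSucc (φ ⟨a', ha'⟩))
      obtain ⟨d, hd⟩ := h1
      rw [hTc, hTc, Equiv.symm_apply_apply, Equiv.symm_apply_apply] at hd
      have hSa' : c j a' • S (e a') ≠ 0 := smul_ne_zero ha' (hS _)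
      rw [div_eq_iff hSa', ← Algebra.smul_def, smul_smul] at hd
      have h4 := LinearIndependent.pair_iff.1 ((linearIndependent_pair_of hli' (Ne.symm haa)))
        (c j a) (-(d * c j a')) (by
          rw [hd, neg_smul, add_neg_cancel])
      exact ha h4.1
  choose a d hd0 hd using hone
  exact ⟨q, e, a, hli', fun j => ⟨d j, hd0 j, hd j⟩⟩
where
  linearIndependent_pair_of {q : ℕ} {u : Fin q → K} (hu : LinearIndependent k u) {a b : Fin q}
      (hab : a ≠ b) : LinearIndependent k ![u a, u b] := by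
    have h1 := hu.comp ![a, b] (by
      intro i j hij
      fin_cases i <;> fin_cases j <;> simp_all)
    convert h1 using 1
    funext i
    fin_cases i <;> rfl

end comb

variable {k : Type} [Field k] {n : ℕ} {ι κ : Type}

/-- The variety `V` with generic point `y` is its linear hull, with coordinates `m b`, and the
hypersurfaces `Q j = 0` meet it in the coordinate hyperplanes with index in the range of `e`. -/
structure LinPair {K : Type} [Field K] [Algebra k K] (Q : κ → MvPolynomial (Fin (n + 1)) k)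
    (y : Fin (n + 1) → K) {r q : ℕ} (m v : Fin r → Fin (n + 1) → k) (e : Fin q → Fin r)
    (a : κ → Fin q) (c : κ → k) : Prop where
  frame : Frame y m v
  var : ∀ x ∈ Hull k y, ∀ G : MvPolynomial (Fin (n + 1)) k, IsForm G →
    Pool.Agent.W602.GT.val y G = 0 → Pool.Agent.W602.GT.val x G = 0
  inj : Function.Injective e
  surj : Function.Surjective a
  cne : ∀ j, c j ≠ 0
  pos : ∀ j, 0 < (Q j).totalDegree
  bd : ∀ j, ∀ x ∈ Hull k y, Pool.Agent.W602.GT.val x (Q j) =
    c j * lin (m (e (a j))) x ^ (Q j).totalDegree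

theorem val_algMap {K : Type} [Field K] [Algebra k K] (x : Fin (n + 1) → k)
    (G : MvPolynomial (Fin (n + 1)) k) :
    Pool.Agent.W602.GT.val (fun i => algebraMap k K (x i)) G =
      algebraMap k K (Pool.Agent.W602.GT.val x G) := by
  unfold Pool.Agent.W602.GT.val
  exact aeval_algebraMap_apply K x G

theorem lin_algMap {K : Type} [Field K] [Algebra k K] (l x : Fin (n + 1) → k) :
    lin l (fun i => algebraMap k K (x i)) = algebraMap k K (lin l x) := by
  unfold lin
  rw [map_sum]
  refine Finset.sum_congr rfl fun i _ => ?_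
  rw [map_mul]
  rfl

/-- **Linear spaces and hyperplanes.** -/
theorem lin_fin [IsAlgClosed k] [Finite κ] {F : ι → MvPolynomial (Fin (n + 1)) k}
    {Q : κ → MvPolynomial (Fin (n + 1)) k} {K : Type} [Field K] [Algebra k K] {w : ℕ}
    {y : Fin (n + 1) → K} (hy : SubVarQ F Q K w y) (hcomp : IsComponentQ F Q y)
    (hdpos : ∀ j, 0 < (Q j).totalDegree) (lq : κ → Fin (n + 1) → k)
    (hlq0 : ∀ j, lin (lq j) y ≠ 0)
    (hFx : ∀ x ∈ Hull k y, ∀ i, Pool.Agent.W602.GT.val x (F i) = 0)
    (c0 : κ → k) (hc0 : ∀ j, c0 j ≠ 0)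
    (hQx : ∀ j, ∀ x ∈ Hull k y, Pool.Agent.W602.GT.val x (Q j) =
      c0 j * lin (lq j) x ^ (Q j).totalDegree)
    (hcirc : ∀ (m : ℕ) (T : Fin (m + 1) → K),
      (∀ a, ∃ (c : k) (j : κ), c ≠ 0 ∧ T a = c • lin (lq j) y) →
      ∑ a, T a = 0 → LinearIndependent k (fun l => T ((Fin.last m).succAbove l)) →
      ∀ a b, ∃ c : k, T a / T b = algebraMap k K c) :
    ∃ (r q : ℕ) (m v : Fin r → Fin (n + 1) → k) (e : Fin q → Fin r) (a : κ → Fin q) (c : κ → k),
      LinPair Q y m v e a c := by
  classical
  have := Fintype.ofFinite κ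
  have hinf : Infinite k := inferInstance
  obtain ⟨q, e0, a0, hli, ha0⟩ := indep_of_circ (k := k) (fun j => lin (lq j) y) hlq0 hcirc
  have hsurj : Function.Surjective a0 := by
    intro b
    refine ⟨e0 b, ?_⟩
    obtain ⟨c, hc, h1⟩ := ha0 (e0 b)
    by_contra hne
    have h2 := indep_of_circ.linearIndependent_pair_of hli (Ne.symm hne)
    have h3 := LinearIndependent.pair_iff.1 h2 1 (-c) (by
      rw [one_smul, neg_smul, ← h1, add_neg_cancel])
    exact one_ne_zero h3.1
  obtain ⟨r, m, v, e, hfr, he, hme⟩ := exists_frame' (fun b => lq (e0 b)) hli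
  choose d hd0 hd using ha0
  refine ⟨r, q, m, v, e, a0, fun j => c0 j * d j ^ (Q j).totalDegree, hfr, ?_, he, hsurj,
    fun j => mul_ne_zero (hc0 j) (pow_ne_zero _ (hd0 j)), hdpos, ?_⟩
  · -- the variety
    intro x hx G hG' hyG
    obtain ⟨Hc, hHc, hHy, hcone⟩ := hcomp
    refine hfr.prime (G := G) (H := Hc * ∏ j, Q j) ?_ ?_ x hx
    · intro x hx
      rw [val_mul, val_mul, val_prod]
      by_cases hx0 : x = 0
      · obtain ⟨dG, hdG⟩ := hG'
        have h1 := val_smul hdG (0 : K) y
        rw [hyG, mul_zero] at h1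
        have h2 : Pool.Agent.W602.GT.val x G = 0 := by
          apply (algebraMap k K).injective
          rw [map_zero, ← val_algMap, ← h1]
          congr 1
          funext i
          rw [hx0]
          simp
        rw [h2, zero_mul]
      by_cases h0 : Pool.Agent.W602.GT.val x Hc = 0
      · rw [h0, zero_mul, mul_zero]
      by_cases h2 : ∃ j, Pool.Agent.W602.GT.val x (Q j) = 0
      · obtain ⟨j, hj⟩ := h2
        rw [Finset.prod_eq_zero (Finset.mem_univ j) hj, mul_zero, mul_zero]
      · push Not at h2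
        rw [(hcone x ⟨hx0, hFx x hx, h2⟩ h0).2 G hG' hyG, zero_mul]
    · rw [val_mul, val_prod]
      exact mul_ne_zero hHy (Finset.prod_ne_zero_iff.2 fun j _ => hy.off j)
  · -- the boundary
    intro j x hx
    rw [hQx j x hx, hme]
    have h1 : lin (lq j) x = d j * lin (lq (e0 (a0 j))) x := by
      have h2 : lin (lq j - d j • lq (e0 (a0 j))) y = 0 := by
        have h5 : lin (lq j - d j • lq (e0 (a0 j))) y =
            lin (lq j) y - algebraMap k K (d j) * lin (lq (e0 (a0 j))) y := by
          unfold lin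
          simp only [Pi.sub_apply, Pi.smul_apply, smul_eq_mul, map_sub, map_mul, sub_mul,
            Finset.sum_sub_distrib, Finset.mul_sum, mul_assoc]
        rw [h5, ← Algebra.smul_def, ← hd j, sub_self]
      have h6 := hx _ h2
      have h5 : lin (lq j - d j • lq (e0 (a0 j))) x =
          lin (lq j) x - d j * lin (lq (e0 (a0 j))) x := by
        unfold lin
        simp only [Pi.sub_apply, Pi.smul_apply, smul_eq_mul, map_sub, map_mul, sub_mul,
          Finset.sum_sub_distrib, Finset.mul_sum, mul_assoc, Algebra.algebraMap_self,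
          RingHom.id_apply]
      rw [h5] at h6
      exact sub_eq_zero.1 h6
    rw [h1, mul_pow]
    ring

/-- **The structure theorem.** -/
theorem lin_core [IsAlgClosed k] [CharZero k] [Finite κ] {F : ι → MvPolynomial (Fin (n + 1)) k}
    {Q : κ → MvPolynomial (Fin (n + 1)) k} {s N H : ℕ}
    (hF : ∀ i, IsNested s N H (F i)) (hQ : ∀ j, IsNested s N H (Q j)) (hN : bnd n s H ≤ N)
    {K : Type} [Field K] [Algebra k K] {w : ℕ}
    {y : Fin (n + 1) → K} (hy : SubVarQ F Q K w y) (hcomp : IsComponentQ F Q y)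
    (hgen' : ∀ o : Place k K → ℤ, ∀ A : CFam k K, (∃ c',
      Gen (OffAny Q y) N (2 * s) ((H + 1) * (2 * s * (2 * s))) o IsLin y c' A) →
      ∀ i a b, ∃ c : k, A.T i a / A.T i b = algebraMap k K c)
    (hcirc : κ → ∀ (m : ℕ) (T : Fin (m + 1) → K), (∀ a, T a ≠ 0) →
      ∑ a, T a = 0 → LinearIndependent k (fun l => T ((Fin.last m).succAbove l)) →
      (∀ P, ¬ OffAny Q y P → ∀ a b, P.ord (T a) = P.ord (T b)) →
      ∀ a b, ∃ c : k, T a / T b = algebraMap k K c) :
    ∃ (r q : ℕ) (m v : Fin r → Fin (n + 1) → k) (e : Fin q → Fin r) (a : κ → Fin q) (c : κ → k),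
      LinPair Q y m v e a c := by
  classical
  have := Fintype.ofFinite κ
  have hinf : Infinite k := inferInstance
  have hN1 : 1 ≤ N := le_trans (by unfold bnd; omega) hN
  have hQne : ∀ j, Q j ≠ 0 := by
    intro j h0
    apply hy.off j
    rw [h0]
    unfold Pool.Agent.W602.GT.val
    rw [map_zero]
  have hhom : ∀ j, (Q j).IsHomogeneous (Q j).totalDegree := fun j =>
    nested_hom (hQ j) (hQne j)
  have hdpos : ∀ j, 0 < (Q j).totalDegree := fun j => nested_pos (hQ j) hN1 (hQne j)
  obtain ⟨o, ho⟩ := exists_o hhom hy.ne hy.off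
  have hgen := hgen' o
  have hbot : ∀ {z : K}, z ∈ (⊥ : IntermediateField k K) ↔ ∃ c : k, z = algebraMap k K c := by
    intro z
    rw [IntermediateField.mem_bot]
    constructor
    · rintro ⟨c, hc⟩
      exact ⟨c, hc.symm⟩
    · rintro ⟨c, hc⟩
      exact ⟨c, hc.symm⟩
  have hroot : Root (⊥ : IntermediateField k K) := by
    intro z d hd hz
    rw [hbot] at hz ⊢
    obtain ⟨c, hc⟩ := hz
    have h1 : IsAlgebraic k (z ^ d) := by
      rw [hc]
      exact isAlgebraic_algebraMap c
    exact const_of_algebraic (h1.of_pow hd)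
  obtain ⟨lq, hG, hlq⟩ := good_of (W := (⊥ : IntermediateField k K)) hF hQ hN1 hy.mem hy.off ho
    hroot (fun c' A hA i a b => hbot.2 (hgen A ⟨c', hA⟩ i a b))
  -- the points of the hull
  have hinv : ∀ x ∈ Hull k y, InV (PrC (⊥ : IntermediateField k K) y) y
      (fun i => algebraMap k K (x i)) := by
    intro x hx
    constructor
    · intro l hl
      rw [lin_algMap, hx l hl, map_zero]
    · rintro ⟨p1, p2⟩ ⟨h1, h2, h3⟩
      obtain ⟨c, hc⟩ := hbot.1 h3
      simp only at h1 h2 hc ⊢
      have h4 : lin (p1 - c • p2) y = 0 := by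
        have h5 : lin (p1 - c • p2) y = lin p1 y - algebraMap k K c * lin p2 y := by
          unfold lin
          simp only [Pi.sub_apply, Pi.smul_apply, smul_eq_mul, map_sub, map_mul, sub_mul,
            Finset.sum_sub_distrib, Finset.mul_sum, mul_assoc]
        rw [h5, ← hc, div_mul_cancel₀ _ h2, sub_self]
      have h6 := hx _ h4
      have h5 : lin (p1 - c • p2) x = lin p1 x - c * lin p2 x := by
        unfold lin
        simp only [Pi.sub_apply, Pi.smul_apply, smul_eq_mul, map_sub, map_mul, sub_mul,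
          Finset.sum_sub_distrib, Finset.mul_sum, mul_assoc, Algebra.algebraMap_self,
          RingHom.id_apply]
      rw [h5, sub_eq_zero] at h6
      rw [lin_algMap, lin_algMap, h6, map_mul, hc, Algebra.algebraMap_self, RingHom.id_apply]
  have hFx : ∀ x ∈ Hull k y, ∀ i, Pool.Agent.W602.GT.val x (F i) = 0 := by
    intro x hx i
    have h1 := hG.van K _ (hinv x hx) i
    rw [val_algMap] at h1
    exact (map_eq_zero _).1 h1
  have hcc : ∀ j, ∃ c : k, c ≠ 0 ∧ Pool.Agent.W602.GT.val y (Q j) /
      lin (lq j) y ^ (Q j).totalDegree = algebraMap k K c := by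
    intro j
    obtain ⟨c, hc⟩ := hbot.1 (inv_mem (hlq j))
    rw [inv_div] at hc
    refine ⟨c, ?_, hc⟩
    rintro rfl
    rw [map_zero, div_eq_zero_iff] at hc
    rcases hc with h | h
    · exact hy.off j h
    · exact pow_ne_zero _ (hG.lq_ne j) h
  choose c0 hc0 hcv using hcc
  have hQx : ∀ j, ∀ x ∈ Hull k y, Pool.Agent.W602.GT.val x (Q j) =
      c0 j * lin (lq j) x ^ (Q j).totalDegree := by
    intro j x hx
    have h1 := hG.lq_val K _ (hinv x hx) j
    rw [val_algMap, lin_algMap, hcv, Algebra.algebraMap_self, RingHom.id_apply, ← map_pow,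
      ← map_mul] at h1
    exact (algebraMap k K).injective h1
  -- the orders of the boundary forms
  have hord : ∀ P, ¬ OffAny Q y P → ∀ j, P.ord (lin (lq j) y) = o P := by
    intro P hP j
    have h1 := ho P hP j
    have h2 : Pool.Agent.W602.GT.val y (Q j) = algebraMap k K (c0 j) *
        lin (lq j) y ^ (Q j).totalDegree := by
      rw [← hcv j, div_mul_cancel₀ _ (pow_ne_zero _ (hG.lq_ne j))]
    rw [h2, P.ord_mul (by rw [Ne, map_eq_zero]; exact hc0 j) (pow_ne_zero _ (hG.lq_ne j)),
      P.ord_const (hc0 j), zero_add, P.ord_pow] at h1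
    have h3 : ((Q j).totalDegree : ℤ) ≠ 0 := by exact_mod_cast (hdpos j).ne'
    exact mul_left_cancel₀ h3 h1
  exact lin_fin hy hcomp hdpos lq hG.lq_ne hFx c0 hc0 hQx (by
    intro m T hT hsum hlin
    have hTne : ∀ a, T a ≠ 0 := by
      intro a
      obtain ⟨c, j, hc, h1⟩ := hT a
      rw [h1]
      exact smul_ne_zero hc (hG.lq_ne j)
    have hTo : ∀ P, ¬ OffAny Q y P → ∀ a, P.ord (T a) = o P := by
      intro P hP a
      obtain ⟨c, j, hc, h1⟩ := hT a
      rw [h1, ord_smul' P hc, hord P hP]
    obtain ⟨_, j, -, -⟩ := hT 0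
    exact hcirc j m T hTne hsum hlin fun P hP a b => by rw [hTo P hP, hTo P hP])

/-- **The structure theorem, for a class of families.** -/
theorem lin_main [IsAlgClosed k] [CharZero k] [Finite κ] {F : ι → MvPolynomial (Fin (n + 1)) k}
    {Q : κ → MvPolynomial (Fin (n + 1)) k} {s N H : ℕ}
    (hF : ∀ i, IsNested s N H (F i)) (hQ : ∀ j, IsNested s N H (Q j)) (hN : bnd n s H ≤ N)
    {K : Type} [Field K] [Algebra k K] {w : ℕ}
    {y : Fin (n + 1) → K} (hy : SubVarQ F Q K w y) (hcomp : IsComponentQ F Q y)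
    (hfam : ∀ (G : CFam k K → Prop) (N' s' c' : ℕ), (∀ A, G A → A.Ok (OffAny Q y) N' s' c') →
      w * (c' * ((s' + 1) * tn (s' - 1))) ≤ N' →
      ∀ A, G A → ∀ i a b, ∃ c : k, A.T i a / A.T i b = algebraMap k K c) :
    ∃ (r q : ℕ) (m v : Fin r → Fin (n + 1) → k) (e : Fin q → Fin r) (a : κ → Fin q) (c : κ → k),
      LinPair Q y m v e a c := by
  have halg : Algebra.IsAlgebraic (coords k y) K := by
    rw [hy.gen]
    infer_instance
  have hwn := dim_le hy.ne halg hy.dim
  refine lin_core hF hQ hN hy hcomp (fun o => ?_) (fun _ m T hTne hsum hlin hT a b => ?_)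
  · refine hfam _ N (2 * s) ((H + 1) * (2 * s * (2 * s))) ?_ ?_
    · rintro A ⟨c', hA⟩
      exact hA.ok.1.mono hA.ok.2
    · refine le_trans ?_ hN
      refine le_trans (Nat.mul_le_mul_right _ hwn) ?_
      unfold bnd
      omega
  · have h1 := hfam (fun A => A = CFam.single T hTne hsum hlin)
      (w * (1 * ((m + 1 + 1) * tn (m + 1 - 1)))) (m + 1) 1 (by
        rintro A rfl
        refine ⟨le_rfl, fun _ => le_rfl, fun P hP => Or.inl fun _ a b => ?_⟩
        exact hT P hP a b) le_rfl _ rfl
    exact h1 () a b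

/-- **Special nested varieties.** -/
theorem lin_of_special [IsAlgClosed k] [CharZero k] [Finite κ]
    {F : ι → MvPolynomial (Fin (n + 1)) k}
    {Q : κ → MvPolynomial (Fin (n + 1)) k} {s N H : ℕ}
    (hF : ∀ i, IsNested s N H (F i)) (hQ : ∀ j, IsNested s N H (Q j)) (hN : bnd n s H ≤ N)
    {K : Type} [Field K] [Algebra k K] {w : ℕ}
    {y : Fin (n + 1) → K} (hy : SubVarQ F Q K w y) (hcomp : IsComponentQ F Q y)
    (hs : Special k K w (OffAny Q y)) :
    ∃ (r q : ℕ) (m v : Fin r → Fin (n + 1) → k) (e : Fin q → Fin r) (a : κ → Fin q) (c : κ → k),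
      LinPair Q y m v e a c :=
  lin_main hF hQ hN hy hcomp fun G _ _ _ hG hN' => const_of_special hy.dim G hG hN' hs

end Pool.Agent.TH710.SP
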