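import Pool.Agent.TH710.SP.Pi1
import Pool.Agent.TH710.SP.Defs
import Pool.Agent.TH710.SP.Main

/-!
The topology of linear spaces and of complements of independent hyperplanes in them.
-/

set_option autoImplicit false

open MvPolynomial unitInterval Pool.Agent.W602.GT Pool.Agent.W603.GX Pool.Agent.W603.LV
  Pool.Agent.W603.GR Pool.Agent.W603.GW

namespace Pool.Agent.TH710.SP

variable {n : ℕ} {κ : Type}

theorem mk_eq {x y : {x : Fin (n + 1) → ℂ // x ≠ 0}} :
    mkP x = mkP y ↔ ∃ c : ℂ, c ≠ 0 ∧ x.1 = c • y.1 := by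
  refine (Projectivization.mk_eq_mk_iff' ℂ x.1 y.1 x.2 y.2).trans ?_
  constructor
  · rintro ⟨c, hc⟩
    refine ⟨c, ?_, hc.symm⟩
    rintro rfl
    apply x.2
    rw [← hc, zero_smul]
  · rintro ⟨c, -, hc⟩
    exact ⟨c, hc.symm⟩

theorem mk_cont : Continuous (mkP (n := n)) := continuous_coinduced_rng

theorem mk_surj : Function.Surjective (mkP (n := n)) := by
  intro p
  induction p using Projectivization.ind with
  | h v hv => exact ⟨⟨v, hv⟩, rfl⟩

theorem mk_open : IsOpenMap (mkP (n := n)) := by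
  intro U hU
  rw [isOpen_coinduced]
  have h1 : mkP ⁻¹' (mkP '' U) = ⋃ c : ℂˣ, (fun x : {x : Fin (n + 1) → ℂ // x ≠ 0} =>
      (⟨(c : ℂ) • x.1, smul_ne_zero c.ne_zero x.2⟩ : {x : Fin (n + 1) → ℂ // x ≠ 0})) ⁻¹' U := by
    ext x
    simp only [Set.mem_preimage, Set.mem_image, Set.mem_iUnion]
    constructor
    · rintro ⟨z, hz, h⟩
      obtain ⟨c, hc, h'⟩ := mk_eq.1 h
      refine ⟨Units.mk0 c hc, ?_⟩
      convert hz using 1
      exact Subtype.ext h'.symm
    · rintro ⟨c, hc⟩
      exact ⟨_, hc, mk_eq.2 ⟨c, c.ne_zero, rfl⟩⟩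
  rw [h1]
  refine isOpen_iUnion fun c => hU.preimage ?_
  exact Continuous.subtype_mk (by fun_prop) _

theorem mk_oq : IsOpenQuotientMap (mkP (n := n)) :=
  ⟨mk_surj, mk_cont, mk_open⟩

theorem lin_smul' (l : Fin (n + 1) → ℂ) (c : ℂ) (x : Fin (n + 1) → ℂ) :
    lin l (c • x) = c * lin l x := by
  unfold lin
  rw [Finset.mul_sum]
  refine Finset.sum_congr rfl fun i _ => ?_
  rw [Pi.smul_apply, smul_eq_mul]
  ring

/-- the ratio of two linear forms -/
noncomputable def rat (l l' : Fin (n + 1) → ℂ) : CP n → ℂ :=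
  Projectivization.lift (fun x => lin l x.1 / lin l' x.1) (by
    rintro ⟨x, hx⟩ ⟨y, hy⟩ c h
    simp only at h
    have hc : c ≠ 0 := by
      rintro rfl
      apply hx
      rw [h, zero_smul]
    simp only [h]
    rw [lin_smul', lin_smul', mul_div_mul_left _ _ hc])

theorem rat_mk (l l' : Fin (n + 1) → ℂ) (x : {x : Fin (n + 1) → ℂ // x ≠ 0}) :
    rat l l' (mkP x) = lin l x.1 / lin l' x.1 := rfl

theorem lin_cont (l : Fin (n + 1) → ℂ) : Continuous fun x : Fin (n + 1) → ℂ => lin l x := by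
  unfold lin
  fun_prop

theorem rat_cont (l l' : Fin (n + 1) → ℂ) (x : {x : Fin (n + 1) → ℂ // x ≠ 0})
    (hx : lin l' x.1 ≠ 0) : ContinuousAt (rat l l') (mkP x) := by
  rw [← mk_oq.continuousAt_comp_iff]
  change ContinuousAt (fun x : {x : Fin (n + 1) → ℂ // x ≠ 0} => lin l x.1 / lin l' x.1) x
  exact ((lin_cont l).comp continuous_subtype_val).continuousAt.div
    ((lin_cont l').comp continuous_subtype_val).continuousAt hx

section frame

variable {K : Type} [Field K] [Algebra ℂ K] {y : Fin (n + 1) → K} {r : ℕ}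
  {m v : Fin r → Fin (n + 1) → ℂ}

/-- the vector with given coordinates -/
def vec (v : Fin r → Fin (n + 1) → ℂ) (s : Fin r → ℂ) : Fin (n + 1) → ℂ :=
  fun i => ∑ b, s b * v b i

theorem vec_cont (v : Fin r → Fin (n + 1) → ℂ) : Continuous (vec v) := by
  unfold vec
  fun_prop

theorem lin_vec (hf : Frame y m v) (s : Fin r → ℂ) (b : Fin r) : lin (m b) (vec v s) = s b := by
  classical
  have h1 := lin_sum (m b) s v
  simp only [Algebra.algebraMap_self, RingHom.id_apply] at h1
  unfold vec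
  rw [h1, Finset.sum_eq_single b]
  · rw [hf.dual, if_pos rfl, mul_one]
  · intro b' _ hb'
    rw [hf.dual, if_neg (Ne.symm hb'), mul_zero]
  · intro h
    exact absurd (Finset.mem_univ _) h

theorem vec_ne (hf : Frame y m v) {s : Fin r → ℂ} (hs : s ≠ 0) : vec v s ≠ 0 := by
  intro h0
  apply hs
  funext b
  rw [← lin_vec hf s b, h0]
  unfold lin
  simp

theorem vec_repr (hf : Frame y m v) {x : Fin (n + 1) → ℂ} (hx : x ∈ Hull ℂ y) :
    vec v (fun b => lin (m b) x) = x := by
  funext i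
  exact (hf.repr hx i).symm

theorem hull_of_var {x : Fin (n + 1) → ℂ} (hx : x ∈ VarPts ℂ y) : x ∈ Hull ℂ y := by
  intro l hl
  have h1 := hx.2 (∑ j, C (l j) * X j) ⟨1, by
    apply IsHomogeneous.sum
    intro j _
    have := (isHomogeneous_C (Fin (n + 1)) (l j)).mul (isHomogeneous_X ℂ j)
    simpa using this⟩ (by
      unfold Pool.Agent.W602.GT.val
      rw [Pool.Agent.TH710.ND.aeval_lin]
      exact hl)
  unfold Pool.Agent.W602.GT.val at h1
  rwa [Pool.Agent.TH710.ND.aeval_lin] at h1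

end frame

section pair

variable {K : Type} [Field K] [Algebra ℂ K] {Q : κ → MvPolynomial (Fin (n + 1)) ℂ}
  {y : Fin (n + 1) → K} {r q : ℕ} {m v : Fin r → Fin (n + 1) → ℂ} {e : Fin q → Fin r}
  {a : κ → Fin q} {c : κ → ℂ}

theorem LinPair.mem (h : LinPair Q y m v e a c) {s : Fin r → ℂ} (hs : s ≠ 0)
    (hse : ∀ b, s (e b) ≠ 0) : mkP ⟨vec v s, vec_ne h.frame hs⟩ ∈ XPts Q y := by
  refine ⟨_, rfl, ⟨vec_ne h.frame hs, fun G hG hyG => h.var _ (h.frame.mem s) G hG hyG⟩,
    fun j => ?_⟩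
  change Pool.Agent.W602.GT.val (vec v s) (Q j) ≠ 0
  have hh : vec v s ∈ Hull ℂ y := h.frame.mem s
  rw [h.bd j _ hh]
  have h1 : lin (m (e (a j))) (vec v s) ≠ 0 := by
    rw [lin_vec h.frame]
    exact hse _
  exact mul_ne_zero (h.cne j) (pow_ne_zero _ h1)

theorem LinPair.rep (h : LinPair Q y m v e a c) {p : CP n} (hp : p ∈ XPts Q y) :
    ∃ x : {x : Fin (n + 1) → ℂ // x ≠ 0}, mkP x = p ∧ x.1 ∈ Hull ℂ y ∧
      ∀ b, lin (m (e b)) x.1 ≠ 0 := by
  obtain ⟨x, hx, hxV, hxQ⟩ := hp
  refine ⟨x, hx, hull_of_var hxV, fun b => ?_⟩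
  obtain ⟨j, rfl⟩ := h.surj b
  intro h0
  apply hxQ j
  rw [h.bd j _ (hull_of_var hxV), h0, zero_pow (h.pos j).ne', mul_zero]

theorem rep_eq (hf : Frame y m v) {x : {x : Fin (n + 1) → ℂ // x ≠ 0}} (hx : x.1 ∈ Hull ℂ y)
    {b : Fin r} (hb : lin (m b) x.1 ≠ 0) {s : Fin r → ℂ} (hs : s ≠ 0)
    (h : ∀ b', s b' = lin (m b') x.1 / lin (m b) x.1) :
    mkP ⟨vec v s, vec_ne hf hs⟩ = mkP x := by
  refine mk_eq.2 ⟨(lin (m b) x.1)⁻¹, inv_ne_zero hb, ?_⟩
  funext i
  have h2 : x.1 i = ∑ b', lin (m b') x.1 * v b' i := hf.repr hx i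
  change ∑ b', s b' * v b' i = (lin (m b) x.1)⁻¹ * x.1 i
  rw [h2, Finset.mul_sum]
  refine Finset.sum_congr rfl fun b' _ => ?_
  rw [h b', div_eq_inv_mul, mul_assoc]

/-- **Complements of hyperplanes.** The fundamental groups of the complement of at least one
of the independent hyperplanes are commutative. -/
theorem LinPair.comm (h : LinPair Q y m v e a c) (b1 : Fin q) (p0 : XPts Q y)
    (f g : Path p0 p0) : (f.trans g).Homotopic (g.trans f) := by
  classical
  let b0 : Fin r := e b1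
  let u : Fin r → XPts Q y → ℂ := fun b p => rat (m b) (m b0) p.1
  have hu : ∀ b, Continuous (u b) := by
    intro b
    rw [continuous_iff_continuousAt]
    rintro ⟨p, hp⟩
    obtain ⟨x, rfl, hx, hx1⟩ := h.rep hp
    exact ContinuousAt.comp (g := rat (m b) (m b0)) (f := Subtype.val)
      (x := (⟨mkP x, hp⟩ : XPts Q y)) (rat_cont (m b) (m b0) x (hx1 b1))
      continuous_subtype_val.continuousAt
  have hu0 : ∀ p, u b0 p = 1 := by
    rintro ⟨p, hp⟩
    obtain ⟨x, rfl, hx, hx1⟩ := h.rep hp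
    change rat (m b0) (m b0) (mkP x) = 1
    rw [rat_mk]
    exact div_self (hx1 b1)
  have hue : ∀ b p, u (e b) p ≠ 0 := by
    rintro b ⟨p, hp⟩
    obtain ⟨x, rfl, hx, hx1⟩ := h.rep hp
    change rat (m (e b)) (m b0) (mkP x) ≠ 0
    rw [rat_mk]
    exact div_ne_zero (hx1 b) (hx1 b1)
  have huniq : ∀ (p : XPts Q y) (s : Fin r → ℂ) (hs : s ≠ 0), (∀ b, s b = u b p) →
      mkP ⟨vec v s, vec_ne h.frame hs⟩ = p.1 := by
    rintro ⟨p, hp⟩ s hs hsu
    obtain ⟨x, rfl, hx, hx1⟩ := h.rep hp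
    exact rep_eq h.frame hx (hx1 b1) hs hsu
  -- the coordinates of the product
  let M : XPts Q y × XPts Q y → Fin r → ℂ := fun z b =>
    if b ∈ Set.range e then u b z.1 * u b z.2 / u b p0 else u b z.1 + u b z.2 - u b p0
  have hM : Continuous M := by
    rw [continuous_pi_iff]
    intro b
    by_cases hb : b ∈ Set.range e
    · simp only [M, if_pos hb]
      exact (((hu b).comp continuous_fst).mul ((hu b).comp continuous_snd)).div_const _
    · simp only [M, if_neg hb]
      exact (((hu b).comp continuous_fst).add ((hu b).comp continuous_snd)).sub continuous_const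
  have hMe : ∀ z b, M z (e b) ≠ 0 := by
    intro z b
    change (if e b ∈ Set.range e then _ else _) ≠ _
    rw [if_pos ⟨b, rfl⟩]
    exact div_ne_zero (mul_ne_zero (hue _ _) (hue _ _)) (hue _ _)
  have hM0 : ∀ z, M z ≠ 0 := fun z h0 => hMe z b1 (by rw [h0]; rfl)
  let μ : C(XPts Q y × XPts Q y, XPts Q y) :=
    { toFun := fun z => ⟨mkP ⟨vec v (M z), vec_ne h.frame (hM0 z)⟩, h.mem (hM0 z) (hMe z)⟩
      continuous_toFun := by
        refine Continuous.subtype_mk (mk_cont.comp ?_) _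
        exact Continuous.subtype_mk ((vec_cont v).comp hM) _ }
  have h1 : ∀ x, μ (p0, x) = x := by
    intro x
    apply Subtype.ext
    refine huniq x _ (hM0 (p0, x)) fun b => ?_
    simp only [M]
    split_ifs with hb
    · obtain ⟨b', rfl⟩ := hb
      rw [mul_comm, mul_div_assoc, div_self (hue _ _), mul_one]
    · ring
  have h2 : ∀ x, μ (x, p0) = x := by
    intro x
    apply Subtype.ext
    refine huniq x _ (hM0 (x, p0)) fun b => ?_
    simp only [M]
    split_ifs with hb
    · obtain ⟨b', rfl⟩ := hb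
      rw [mul_div_assoc, div_self (hue _ _), mul_one]
    · ring
  exact comm_of_mul p0 μ h1 h2 f g

theorem exists_gam (z : ℂ) : ∃ γ : I → ℂ, Continuous γ ∧ γ 0 = 1 ∧ γ 1 = z ∧
    (z ≠ 0 → ∀ t, γ t ≠ 0) := by
  by_cases hz : z = 0
  · refine ⟨fun t => 1 - ((t : ℝ) : ℂ), by fun_prop, by simp, by simp [hz], fun h => absurd hz h⟩
  · refine ⟨fun t => Complex.exp (((t : ℝ) : ℂ) * Complex.log z), by fun_prop, by simp, ?_,
      fun _ t => Complex.exp_ne_zero _⟩
    simp [Complex.exp_log hz]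

/-- **Linear spaces** are simply connected. -/
theorem LinPair.simply [IsEmpty κ] (h : LinPair Q y m v e a c) (hy : y ≠ 0) :
    SimplyConnectedSpace (XPts Q y) := by
  classical
  have hq : ∀ b : Fin q, False := fun b => by
    obtain ⟨j, -⟩ := h.surj b
    exact isEmptyElim j
  have hmem : ∀ {s : Fin r → ℂ} (hs : s ≠ 0), mkP ⟨vec v s, vec_ne h.frame hs⟩ ∈ XPts Q y :=
    fun hs => h.mem hs fun b => (hq b).elim
  have hr : 0 < r := by
    rw [Nat.pos_iff_ne_zero]
    rintro rfl
    apply hy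
    funext i
    rw [h.frame.dec i]
    simp
  let O : Fin r → Set (CP n) := fun b => mkP '' {x | lin (m b) x.1 ≠ 0}
  let U : Fin r → Set (XPts Q y) := fun b => Subtype.val ⁻¹' (O b)
  have hO : ∀ b, IsOpen (O b) := by
    intro b
    apply mk_open
    exact ((lin_cont (m b)).comp continuous_subtype_val).isOpen_preimage _ isOpen_compl_singleton
  have hUrep : ∀ b (p : XPts Q y), p ∈ U b → ∃ x : {x : Fin (n + 1) → ℂ // x ≠ 0},
      mkP x = p.1 ∧ x.1 ∈ Hull ℂ y ∧ lin (m b) x.1 ≠ 0 := by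
    rintro b ⟨p, hp⟩ ⟨x, hx, hxp⟩
    obtain ⟨z, hz, hzH, -⟩ := h.rep hp
    refine ⟨z, hz, hzH, ?_⟩
    simp only at hxp
    rw [← hz] at hxp
    obtain ⟨d, hd, hdx⟩ := mk_eq.1 hxp
    intro h0
    apply hx
    rw [hdx, lin_smul', h0, mul_zero]
  have hone : (fun _ : Fin r => (1 : ℂ)) ≠ 0 := by
    intro h0
    have := congrFun h0 ⟨0, hr⟩
    simp at this
  let x0 : XPts Q y := ⟨_, hmem hone⟩
  have hpt : ∀ (s : Fin r → ℂ) (hs : s ≠ 0) (b : Fin r), s b ≠ 0 →
      (⟨_, hmem hs⟩ : XPts Q y) ∈ U b := by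
    intro s hs b hb
    refine ⟨⟨vec v s, vec_ne h.frame hs⟩, ?_, rfl⟩
    change lin (m b) (vec v s) ≠ 0
    rwa [lin_vec h.frame]
  refine simply_of_cover U (fun b => (hO b).preimage continuous_subtype_val) ?_ x0
    (fun b => hpt _ hone b one_ne_zero) ?_ ?_
  · -- the charts cover
    rintro ⟨p, hp⟩
    obtain ⟨x, rfl, hx, -⟩ := h.rep hp
    have h1 : ∃ b, lin (m b) x.1 ≠ 0 := by
      by_contra hcon
      push Not at hcon
      apply x.2
      funext i
      rw [h.frame.repr hx i]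
      exact Finset.sum_eq_zero fun b _ => by rw [hcon b, zero_mul]
    obtain ⟨b, hb⟩ := h1
    exact ⟨b, ⟨x, hb, rfl⟩⟩
  · -- the intersections are connected
    rintro i j p ⟨hi, hj⟩
    obtain ⟨x, hx, hxH, hxi⟩ := hUrep i p hi
    have hxj : lin (m j) x.1 ≠ 0 := by
      obtain ⟨z, hz, hzH, hzj⟩ := hUrep j p hj
      rw [← hx] at hz
      obtain ⟨d, hd, hdx⟩ := mk_eq.1 hz
      intro h0
      apply hzj
      rw [hdx, lin_smul', h0, mul_zero]
    choose γ hγc hγ0 hγ1 hγ using exists_gam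
    have hne : ∀ t, (fun b => γ (lin (m b) x.1) t) ≠ 0 := by
      intro t h0
      have := congrFun h0 i
      exact hγ _ hxi t this
    have hc : Continuous fun t : I => (fun b => γ (lin (m b) x.1) t : Fin r → ℂ) := by
      rw [continuous_pi_iff]
      intro b
      exact hγc _
    refine ⟨{ toFun := fun t => ⟨_, hmem (hne t)⟩
              continuous_toFun := by
                refine Continuous.subtype_mk (mk_cont.comp ?_) _
                exact Continuous.subtype_mk ((vec_cont v).comp hc) _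
              source' := ?_
              target' := ?_ }, fun t =>
        ⟨hpt _ (hne t) i (hγ _ hxi t), hpt _ (hne t) j (hγ _ hxj t)⟩⟩
    · apply Subtype.ext
      change mkP ⟨vec v (fun b => γ (lin (m b) x.1) 0), _⟩ = mkP ⟨vec v (fun _ => 1), _⟩
      simp only [hγ0]
    · apply Subtype.ext
      change mkP ⟨vec v (fun b => γ (lin (m b) x.1) 1), _⟩ = p.1
      rw [← hx]
      refine mk_eq.2 ⟨1, one_ne_zero, ?_⟩
      simp only [hγ1, one_smul]
      exact vec_repr h.frame hxH
  · -- the charts are simply connected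
    intro b x z p p' hp hp'
    have : ContractibleSpace (Fin r → ℂ) := RealTopologicalVectorSpace.contractibleSpace
    have hup : ∀ s : Fin r → ℂ, Function.update s b 1 ≠ 0 := by
      intro s h0
      have := congrFun h0 b
      simp at this
    refine hom_of_section (E := Fin r → ℂ) (U b)
      { toFun := fun s => ⟨_, hmem (hup s)⟩
        continuous_toFun := by
          refine Continuous.subtype_mk (mk_cont.comp ?_) _
          refine Continuous.subtype_mk ((vec_cont v).comp ?_) _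
          exact continuous_id.update b continuous_const }
      (fun p b' => rat (m b') (m b) p.1) ?_ ?_ p p' hp hp'
    · intro w hw
      obtain ⟨x, hx, hxH, hxb⟩ := hUrep b w hw
      apply ContinuousAt.continuousWithinAt
      rw [continuousAt_pi]
      intro b'
      have h1 := rat_cont (m b') (m b) x hxb
      rw [hx] at h1
      exact h1.comp continuous_subtype_val.continuousAt
    · intro w hw
      obtain ⟨x, hx, hxH, hxb⟩ := hUrep b w hw
      apply Subtype.ext
      change mkP ⟨vec v (Function.update (fun b' => rat (m b') (m b) w.1) b 1), _⟩ = w.1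
      rw [← hx]
      refine rep_eq h.frame hxH hxb (hup _) fun b' => ?_
      by_cases hb : b' = b
      · subst hb
        rw [Function.update_self, div_self hxb]
      · rw [Function.update_of_ne hb, rat_mk]

end pair

end Pool.Agent.TH710.SP
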