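import Pool.Agent.TH710.SP.Conv
import Pool.Agent.TH710.SP.Top

/-!
Special quasi-projective varieties given by nested sums of high powers of linear forms: final form.
-/

set_option autoImplicit false

open FF MvPolynomial Pool.Agent.W603.LV Pool.Agent.W603.GR Pool.Agent.W603.GW
  Pool.Agent.W602.GT Pool.Agent.W603.GX Pool.Agent.W603.GY Pool.Agent.TH710.ND

namespace Pool.Agent.TH710.SP

variable {n : ℕ} {ι κ : Type}

/-- `V`, the projective variety with generic point `y`, is a linear space (its linear hull), and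
there are linear forms `l 0, ..., l (q - 1)`, linearly independent on `V`, such that each `Q j` is
a constant multiple of a power of one of them on `V`, and each `l b` occurs. -/
def LinearComplement {k : Type} [Field k] {K : Type} [Field K] [Algebra k K]
    (Q : κ → MvPolynomial (Fin (n + 1)) k) (y : Fin (n + 1) → K) : Prop :=
  (∀ x ∈ Hull k y, ∀ G : MvPolynomial (Fin (n + 1)) k, IsForm G →
    Pool.Agent.W602.GT.val y G = 0 → Pool.Agent.W602.GT.val x G = 0) ∧
  ∃ (q : ℕ) (l : Fin q → Fin (n + 1) → k) (a : κ → Fin q) (c : κ → k),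
    LinearIndependent k (fun b => lin (l b) y) ∧ Function.Surjective a ∧ (∀ j, c j ≠ 0) ∧
    ∀ j, ∀ x ∈ Hull k y, Pool.Agent.W602.GT.val x (Q j) =
      c j * lin (l (a j)) x ^ (Q j).totalDegree

theorem LinPair.compl {k : Type} [Field k] {K : Type} [Field K] [Algebra k K]
    {Q : κ → MvPolynomial (Fin (n + 1)) k} {y : Fin (n + 1) → K} {r q : ℕ}
    {m v : Fin r → Fin (n + 1) → k} {e : Fin q → Fin r} {a : κ → Fin q} {c : κ → k}
    (h : LinPair Q y m v e a c) : LinearComplement Q y :=
  ⟨h.var, q, fun b => m (e b), a, c, h.frame.ind.comp e h.inj, h.surj, h.cne, h.bd⟩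

theorem pair_of_compl {k : Type} [Field k] {K : Type} [Field K] [Algebra k K]
    {Q : κ → MvPolynomial (Fin (n + 1)) k} {y : Fin (n + 1) → K}
    (hpos : ∀ j, 0 < (Q j).totalDegree) (h : LinearComplement Q y) :
    ∃ (r q : ℕ) (m v : Fin r → Fin (n + 1) → k) (e : Fin q → Fin r) (a : κ → Fin q) (c : κ → k),
      LinPair Q y m v e a c := by
  obtain ⟨hvar, q, l, a, c, hl, ha, hc, hbd⟩ := h
  obtain ⟨r, m, v, e, hf, he, hme⟩ := exists_frame' l hl
  refine ⟨r, q, m, v, e, a, c, hf, hvar, he, ha, hc, hpos, fun j x hx => ?_⟩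
  rw [hme]
  exact hbd j x hx

theorem group_comm {X : Type} [TopologicalSpace X] (x : X)
    (h : ∀ f g : Path x x, (f.trans g).Homotopic (g.trans f)) (a b : FundamentalGroup X x) :
    a * b = b * a := by
  obtain ⟨f, rfl⟩ := Quotient.exists_rep (a : Path.Homotopic.Quotient x x)
  obtain ⟨g, rfl⟩ := Quotient.exists_rep (b : Path.Homotopic.Quotient x x)
  exact Quotient.sound (h g f)

/-- **The equivalences.** -/
theorem special_tfae (hn : 1 ≤ n) [Finite κ] {F : ι → MvPolynomial (Fin (n + 1)) ℂ}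
    {Q : κ → MvPolynomial (Fin (n + 1)) ℂ} {s N H : ℕ}
    (hF : ∀ i, IsNested s N H (F i)) (hQ : ∀ j, IsNested s N H (Q j)) (hN : bnd n s H ≤ N)
    {K : Type} [Field K] [Algebra ℂ K] {w : ℕ} {y : Fin (n + 1) → K}
    (hy : SubVarQ F Q K w y) (hcomp : IsComponentQ F Q y) :
    [Special ℂ K w (OffAny Q y), ∃ f, DenseCurve Q y f, LinearComplement Q y].TFAE := by
  have hpos : ∀ j, 0 < (Q j).totalDegree := by
    intro j
    refine nested_pos (hQ j) (le_trans (by unfold bnd; omega) hN) fun h0 => hy.off j ?_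
    rw [h0]
    unfold Pool.Agent.W602.GT.val
    rw [map_zero]
  tfae_have 1 → 3 := by
    intro h
    obtain ⟨r, q, m, v, e, a, c, h⟩ := lin_of_special hF hQ hN hy hcomp h
    exact h.compl
  tfae_have 2 → 3 := by
    rintro ⟨f, hf⟩
    obtain ⟨r, q, m, v, e, a, c, h⟩ := lin_of_curve hn hF hQ hN hy hcomp hf
    exact h.compl
  tfae_have 3 → 1 := by
    intro h
    obtain ⟨r, q, m, v, e, a, c, h⟩ := pair_of_compl hpos h
    exact h.special hy.ne hy.gen hy.dim
  tfae_have 3 → 2 := by
    intro h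
    obtain ⟨r, q, m, v, e, a, c, h⟩ := pair_of_compl hpos h
    exact h.curve hy.ne
  tfae_finish

/-- **Fundamental groups.** -/
theorem pi1_comm [Nonempty κ] {Q : κ → MvPolynomial (Fin (n + 1)) ℂ}
    {K : Type} [Field K] [Algebra ℂ K] {y : Fin (n + 1) → K}
    (hpos : ∀ j, 0 < (Q j).totalDegree) (h : LinearComplement Q y) (p : XPts Q y)
    (a b : FundamentalGroup (XPts Q y) p) : a * b = b * a := by
  obtain ⟨r, q, m, v, e, a', c, h⟩ := pair_of_compl hpos h
  exact group_comm p (h.comm (a' (Classical.arbitrary κ)) p) a b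

end Pool.Agent.TH710.SP
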