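import Pool.Agent.TH710.SP.Core
import Pool.Agent.TH710.ND.Good

/-!
Components of nested varieties all of whose circuits have constant ratios are linear spaces.
-/

set_option autoImplicit false

open FF MvPolynomial Pool.Agent.W603.LV Pool.Agent.W603.GR Pool.Agent.W603.GW
  Pool.Agent.W602.GT Pool.Agent.W603.GX Pool.Agent.W603.GY Pool.Agent.TH710.ND

namespace Pool.Agent.TH710.SP

variable {k : Type} [Field k] {n : ℕ} {ι κ : Type} {K : Type} [Field K] [Algebra k K]

/-- The linear hull of the variety with generic point `y`: the points of `k ^ (n + 1)` which satisfy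
all linear equations of `y`. -/
def Hull (k : Type) [Field k] {K : Type} [Field K] [Algebra k K] (y : Fin (n + 1) → K) :
    Set (Fin (n + 1) → k) :=
  {x | ∀ l : Fin (n + 1) → k, lin l y = 0 → lin l x = 0}

/-- coordinates on the linear hull -/
structure Frame (y : Fin (n + 1) → K) {r : ℕ} (m v : Fin r → Fin (n + 1) → k) : Prop where
  ind : LinearIndependent k fun b => lin (m b) y
  dec : ∀ i, y i = ∑ b, algebraMap k K (v b i) * lin (m b) y

theorem lin_sum {M : Type} [Field M] [Algebra k M] {r : ℕ} (l : Fin (n + 1) → k)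
    (s : Fin r → M) (v : Fin r → Fin (n + 1) → k) :
    lin l (fun i => ∑ b, s b * algebraMap k M (v b i)) =
      ∑ b, s b * algebraMap k M (lin l (v b)) := by
  unfold lin
  simp only [Finset.mul_sum]
  rw [Finset.sum_comm]
  refine Finset.sum_congr rfl fun b _ => ?_
  rw [map_sum, Finset.mul_sum]
  refine Finset.sum_congr rfl fun i _ => ?_
  rw [map_mul]
  simp only [Algebra.algebraMap_self, RingHom.id_apply]
  ring

theorem lin_base (l x : Fin (n + 1) → k) : lin l x = ∑ i, l i * x i := by
  unfold lin
  rfl

theorem Frame.lin_y {y : Fin (n + 1) → K} {r : ℕ} {m v : Fin r → Fin (n + 1) → k}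
    (h : Frame y m v) (l : Fin (n + 1) → k) :
    lin l y = ∑ b, lin l (v b) • lin (m b) y := by
  have h1 : y = fun i => ∑ b, lin (m b) y * algebraMap k K (v b i) := by
    funext i
    rw [h.dec i]
    exact Finset.sum_congr rfl fun b _ => mul_comm _ _
  have h2 := lin_sum l (fun b => lin (m b) y) v
  rw [← h1] at h2
  rw [h2]
  refine Finset.sum_congr rfl fun b _ => ?_
  rw [Algebra.smul_def, mul_comm]

theorem Frame.dual {y : Fin (n + 1) → K} {r : ℕ} {m v : Fin r → Fin (n + 1) → k}
    (h : Frame y m v) (a b : Fin r) : lin (m a) (v b) = if a = b then 1 else 0 := by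
  classical
  have h1 := h.lin_y (m a)
  have h2 : ∑ b, (lin (m a) (v b) - if a = b then 1 else 0) • lin (m b) y = 0 := by
    simp only [sub_smul, Finset.sum_sub_distrib]
    rw [← h1, sub_eq_zero, Finset.sum_eq_single a]
    · rw [if_pos rfl, one_smul]
    · intro b _ hb
      rw [if_neg (Ne.symm hb), zero_smul]
    · intro h3
      exact absurd (Finset.mem_univ _) h3
  have h3 := (Fintype.linearIndependent_iff.1 h.ind) _ h2 b
  exact sub_eq_zero.1 h3

theorem Frame.mem {y : Fin (n + 1) → K} {r : ℕ} {m v : Fin r → Fin (n + 1) → k}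
    (h : Frame y m v) (s : Fin r → k) : (fun i => ∑ b, s b * v b i) ∈ Hull k y := by
  intro l hl
  have h1 := lin_sum l s v
  simp only [Algebra.algebraMap_self, RingHom.id_apply] at h1
  rw [h1]
  rw [h.lin_y] at hl
  have h2 := (Fintype.linearIndependent_iff.1 h.ind) _ hl
  exact Finset.sum_eq_zero fun b _ => by rw [h2 b, mul_zero]

theorem Frame.repr {y : Fin (n + 1) → K} {r : ℕ} {m v : Fin r → Fin (n + 1) → k}
    (h : Frame y m v) {x : Fin (n + 1) → k} (hx : x ∈ Hull k y) (i : Fin (n + 1)) :
    x i = ∑ b, lin (m b) x * v b i := by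
  classical
  have h1 := hx (Pi.single i 1 - fun j => ∑ b, v b i * m b j) (by
    have h2 : lin (Pi.single i 1 - fun j => ∑ b, v b i * m b j) y =
        y i - ∑ b, algebraMap k K (v b i) * lin (m b) y := by
      unfold lin
      simp only [Pi.sub_apply, map_sub, sub_mul, Finset.sum_sub_distrib, map_sum, map_mul,
        Finset.sum_mul, Finset.mul_sum]
      congr 1
      · rw [Finset.sum_eq_single i]
        · simp
        · intro j _ hj
          simp [hj]
        · intro h3
          exact absurd (Finset.mem_univ _) h3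
      · rw [Finset.sum_comm]
        exact Finset.sum_congr rfl fun b _ => Finset.sum_congr rfl fun j _ => by ring
    rw [h2, ← h.dec i, sub_self])
  have h2 : lin (Pi.single i 1 - fun j => ∑ b, v b i * m b j) x =
      x i - ∑ b, lin (m b) x * v b i := by
    unfold lin
    simp only [Pi.sub_apply, map_sub, sub_mul, Finset.sum_sub_distrib, map_sum, map_mul,
      Finset.sum_mul]
    congr 1
    · rw [Finset.sum_eq_single i]
      · simp
      · intro j _ hj
        simp [hj]
      · intro h3
        exact absurd (Finset.mem_univ _) h3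
    · rw [Finset.sum_comm]
      refine Finset.sum_congr rfl fun b _ => Finset.sum_congr rfl fun j _ => ?_
      simp only [Algebra.algebraMap_self, RingHom.id_apply]
      ring
  rw [h2, sub_eq_zero] at h1
  exact h1

/-- polynomials which vanish on the linear hull -/
theorem Frame.zero_of_hull [Infinite k] {y : Fin (n + 1) → K} {r : ℕ}
    {m v : Fin r → Fin (n + 1) → k} (h : Frame y m v) {G : MvPolynomial (Fin (n + 1)) k}
    (hG : ∀ x ∈ Hull k y, Pool.Agent.W602.GT.val x G = 0) :
    (aeval (fun i => ∑ b, C (v b i) * X b : Fin (n + 1) → MvPolynomial (Fin r) k) G) = 0 := by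
  apply MvPolynomial.funext
  intro s
  rw [map_zero]
  have h1 := hG _ (h.mem s)
  unfold Pool.Agent.W602.GT.val at h1
  rw [← h1, ← aeval_eq_eval, ← AlgHom.comp_apply, comp_aeval]
  congr 2
  funext i
  rw [map_sum]
  refine Finset.sum_congr rfl fun b _ => ?_
  rw [map_mul, aeval_C, aeval_X]
  simp [mul_comm]

theorem Frame.val_of_hull [Infinite k] {y : Fin (n + 1) → K} {r : ℕ}
    {m v : Fin r → Fin (n + 1) → k} (h : Frame y m v) {G : MvPolynomial (Fin (n + 1)) k}
    (hG : ∀ x ∈ Hull k y, Pool.Agent.W602.GT.val x G = 0) :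
    Pool.Agent.W602.GT.val y G = 0 := by
  have h1 := congrArg (aeval (fun b => lin (m b) y)) (h.zero_of_hull hG)
  rw [map_zero, ← AlgHom.comp_apply, comp_aeval] at h1
  unfold Pool.Agent.W602.GT.val
  rw [← h1]
  congr 2
  funext i
  rw [map_sum]
  rw [h.dec i]
  refine Finset.sum_congr rfl fun b _ => ?_
  rw [map_mul, aeval_C, aeval_X]

/-- The hull is irreducible. -/
theorem Frame.prime [Infinite k] {y : Fin (n + 1) → K} {r : ℕ}
    {m v : Fin r → Fin (n + 1) → k} (h : Frame y m v) {G H : MvPolynomial (Fin (n + 1)) k}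
    (hGH : ∀ x ∈ Hull k y, Pool.Agent.W602.GT.val x (G * H) = 0)
    (hH : Pool.Agent.W602.GT.val y H ≠ 0) :
    ∀ x ∈ Hull k y, Pool.Agent.W602.GT.val x G = 0 := by
  have h1 := h.zero_of_hull hGH
  rw [map_mul] at h1
  have h2 : ∀ G' : MvPolynomial (Fin (n + 1)) k,
      (aeval (fun i => ∑ b, C (v b i) * X b : Fin (n + 1) → MvPolynomial (Fin r) k) G') = 0 →
      ∀ x ∈ Hull k y, Pool.Agent.W602.GT.val x G' = 0 := by
    intro G' hG' x hx
    have h3 := congrArg (aeval (fun b => lin (m b) x)) hG'
    rw [map_zero, ← AlgHom.comp_apply, comp_aeval] at h3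
    unfold Pool.Agent.W602.GT.val
    rw [← h3]
    congr 2
    funext i
    rw [map_sum, h.repr hx i]
    refine Finset.sum_congr rfl fun b _ => ?_
    rw [map_mul, aeval_C, aeval_X]
    simp [mul_comm]
  rcases mul_eq_zero.1 h1 with h3 | h3
  · exact h2 G h3
  · exfalso
    exact hH (h.val_of_hull (h2 H h3))

/-- a frame which begins with given independent forms -/
theorem exists_frame' {y : Fin (n + 1) → K} {q : ℕ} (l : Fin q → Fin (n + 1) → k)
    (hl : LinearIndependent k fun a => lin (l a) y) :
    ∃ (r : ℕ) (m v : Fin r → Fin (n + 1) → k) (e : Fin q → Fin r), Frame y m v ∧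
      Function.Injective e ∧ ∀ a, m (e a) = l a := by
  classical
  -- the space of the values of linear forms
  let φ : (Fin (n + 1) → k) →ₗ[k] K :=
    { toFun := fun l => lin l y
      map_add' := fun a b => by
        unfold lin
        simp only [Pi.add_apply, map_add, add_mul, Finset.sum_add_distrib]
      map_smul' := fun c a => by
        unfold lin
        simp only [Pi.smul_apply, smul_eq_mul, map_mul, RingHom.id_apply, Algebra.smul_def,
          Finset.mul_sum, mul_assoc] }
  let E : Submodule k K := LinearMap.range φ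
  have hfin : FiniteDimensional k E := inferInstance
  let z : Fin q → E := fun a => ⟨lin (l a) y, ⟨l a, rfl⟩⟩
  have hz : LinearIndependent k z := by
    apply LinearIndependent.of_comp E.subtype
    exact hl
  let B := Module.Basis.extend hz.linearIndepOn_id
  have hfinB : Finite (hz.linearIndepOn_id.extend (Set.subset_univ _)) :=
    Module.Finite.finite_basis B
  obtain ⟨r, ⟨ψ⟩⟩ := Finite.exists_equiv_fin (hz.linearIndepOn_id.extend (Set.subset_univ _))
  let B' := B.reindex ψ
  have hmem : ∀ a, z a ∈ hz.linearIndepOn_id.extend (Set.subset_univ _) := fun a =>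
    Module.Basis.subset_extend hz.linearIndepOn_id ⟨a, rfl⟩
  let e : Fin q → Fin r := fun a => ψ ⟨z a, hmem a⟩
  have he : Function.Injective e := by
    intro a b hab
    have h1 := congrArg Subtype.val (ψ.injective hab)
    exact hz.injective h1
  have hBe : ∀ a, B' (e a) = z a := by
    intro a
    simp only [B', e, Module.Basis.reindex_apply, Equiv.symm_apply_apply]
    exact Module.Basis.extend_apply_self _ _
  have hpre : ∀ b : Fin r, ∃ m : Fin (n + 1) → k, lin m y = (B' b : K) ∧
      ∀ a, e a = b → m = l a := by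
    intro b
    by_cases hb : ∃ a, e a = b
    · obtain ⟨a, rfl⟩ := hb
      refine ⟨l a, ?_, fun a' ha' => by rw [he ha']⟩
      rw [hBe a]
    · obtain ⟨m, hm⟩ := (B' b).2
      exact ⟨m, hm, fun a ha => absurd ⟨a, ha⟩ hb⟩
  choose m hm hme using hpre
  let Y : Fin (n + 1) → E := fun i => ⟨y i, ⟨Pi.single i 1, by
    change lin (Pi.single i 1) y = y i
    unfold lin
    rw [Finset.sum_eq_single i]
    · simp
    · intro j _ hj
      simp [hj]
    · intro h
      exact absurd (Finset.mem_univ _) h⟩⟩
  refine ⟨r, m, fun b i => B'.repr (Y i) b, e, ⟨?_, fun i => ?_⟩, he, fun a => hme _ a rfl⟩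
  · have h1 : (fun b => lin (m b) y) = E.subtype ∘ B' := by
      funext b
      exact hm b
    rw [h1]
    exact B'.linearIndependent.map' E.subtype (Submodule.ker_subtype E)
  · have h1 := congrArg E.subtype (B'.sum_repr (Y i))
    rw [map_sum] at h1
    have h2 : E.subtype (Y i) = y i := rfl
    rw [h2] at h1
    rw [← h1]
    refine Finset.sum_congr rfl fun b _ => ?_
    rw [map_smul, Algebra.smul_def, hm b]
    rfl

end Pool.Agent.TH710.SP
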