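import Mathlib

/-!
Fundamental groups: commutative for spaces with a multiplication, trivial for spaces with a good
cover by simply connected sets.
-/

set_option autoImplicit false

open unitInterval

namespace Pool.Agent.TH710.SP

section mul

variable {X : Type} [TopologicalSpace X]

/-- **Spaces with a multiplication have commutative fundamental groups.** -/
theorem comm_of_mul (e : X) (μ : C(X × X, X)) (h1 : ∀ x, μ (e, x) = x)
    (h2 : ∀ x, μ (x, e) = x) (p q : Path e e) : (p.trans q).Homotopic (q.trans p) := by
  have he : e = μ (e, e) := (h1 e).symm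
  let M : Path (e, e) (e, e) → Path e e := fun r => (r.map μ.continuous).cast he he
  have hM : ∀ r s : Path (e, e) (e, e), M (r.trans s) = (M r).trans (M s) := by
    intro r s
    ext t
    change μ ((r.trans s) t) = ((M r).trans (M s)) t
    rw [Path.trans_apply, Path.trans_apply]
    split_ifs <;> rfl
  have hMh : ∀ r s : Path (e, e) (e, e), r.Homotopic s → (M r).Homotopic (M s) := by
    intro r s h
    exact (h.map μ).pathCast he he
  have hMl : ∀ r : Path e e, M (r.prod (Path.refl e)) = r := by
    intro r
    ext t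
    exact h2 (r t)
  have hMr : ∀ r : Path e e, M ((Path.refl e).prod r) = r := by
    intro r
    ext t
    exact h1 (r t)
  have hpr : ∀ {p p' q q' : Path e e}, p.Homotopic p' → q.Homotopic q' →
      (p.prod q).Homotopic (p'.prod q') := by
    rintro p p' q q' ⟨F⟩ ⟨G⟩
    exact ⟨Path.Homotopic.prodHomotopy F G⟩
  have e1 : (p.trans q).Homotopic (M (p.prod q)) := by
    have h3 : p.trans q = M ((p.trans (Path.refl e)).prod ((Path.refl e).trans q)) := by
      rw [← Path.trans_prod_eq_prod_trans, hM, hMl, hMr]
    rw [h3]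
    exact hMh _ _ (hpr ⟨Path.Homotopy.transRefl p⟩ ⟨Path.Homotopy.reflTrans q⟩)
  have e2 : (q.trans p).Homotopic (M (p.prod q)) := by
    have h3 : q.trans p = M (((Path.refl e).trans p).prod (q.trans (Path.refl e))) := by
      rw [← Path.trans_prod_eq_prod_trans, hM, hMl, hMr]
    rw [h3]
    exact hMh _ _ (hpr ⟨Path.Homotopy.reflTrans p⟩ ⟨Path.Homotopy.transRefl q⟩)
  exact e1.trans e2.symm

end mul

section cover

variable {X : Type} [TopologicalSpace X]

/-- paths in a set with a section over a simply connected space -/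
theorem hom_of_section {E : Type} [TopologicalSpace E] [SimplyConnectedSpace E] (U : Set X)
    (π : C(E, X)) (s : X → E) (hs : ContinuousOn s U) (h : ∀ x ∈ U, π (s x) = x) {x y : X}
    (p q : Path x y) (hp : ∀ t, p t ∈ U) (hq : ∀ t, q t ∈ U) : p.Homotopic q := by
  have hx : x ∈ U := by
    have := hp 0
    rwa [p.source] at this
  have hy : y ∈ U := by
    have := hp 1
    rwa [p.target] at this
  have hc : ∀ r : Path x y, (∀ t, r t ∈ U) → Continuous fun t => s (r t) := by
    intro r hr
    exact hs.comp_continuous r.continuous hr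
  let L : ∀ r : Path x y, (∀ t, r t ∈ U) → Path (s x) (s y) := fun r hr =>
    { toFun := fun t => s (r t)
      continuous_toFun := hc r hr
      source' := by rw [r.source]
      target' := by rw [r.target] }
  have h1 := (SimplyConnectedSpace.paths_homotopic (L p hp) (L q hq)).map π
  have h2 := h1.pathCast (h x hx).symm (h y hy).symm
  have h3 : ∀ r (hr : ∀ t, r t ∈ U), ((L r hr).map π.continuous).cast (h x hx).symm
      (h y hy).symm = r := by
    intro r hr
    ext t
    exact h _ (hr t)
  rw [h3 p hp, h3 q hq] at h2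
  exact h2

theorem seg_path (a b : I) (hab : a ≤ b) : ∃ β : Path a b, ∀ t, β t ∈ Set.Icc a b := by
  have hm : ∀ t : I, (1 - (t : ℝ)) * a + t * b ∈ Set.Icc (a : ℝ) b := by
    intro t
    have h0 := t.2.1
    have h1 := t.2.2
    have h2 : (a : ℝ) ≤ b := hab
    constructor
    · nlinarith
    · nlinarith
  refine ⟨{ toFun := fun t => ⟨(1 - (t : ℝ)) * a + t * b, le_trans a.2.1 (hm t).1,
              le_trans (hm t).2 b.2.2⟩
            continuous_toFun := by fun_prop
            source' := by
              ext
              simp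
            target' := by
              ext
              simp }, fun t => ⟨(hm t).1, (hm t).2⟩⟩

instance : SimplyConnectedSpace I := by
  have : ContractibleSpace I := (convex_Icc (0 : ℝ) 1).contractibleSpace ⟨0, by simp⟩
  infer_instance

/-- **Good covers.** -/
theorem simply_of_cover {ι : Type} (U : ι → Set X) (hopen : ∀ i, IsOpen (U i))
    (hcov : ∀ x, ∃ i, x ∈ U i) (x0 : X) (hx0 : ∀ i, x0 ∈ U i)
    (hpc : ∀ i j, ∀ x ∈ U i ∩ U j, JoinedIn (U i ∩ U j) x0 x)
    (hsc : ∀ i {x y : X} (p q : Path x y), (∀ t, p t ∈ U i) → (∀ t, q t ∈ U i) →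
      p.Homotopic q) : SimplyConnectedSpace X := by
  classical
  -- paths which start in the common point
  have key : ∀ (γ : C(I, X)), γ 0 = x0 → ∀ i (h : Path (γ 0) (γ 1)), (∀ u, h u ∈ U i) →
      ∀ α : Path (0 : I) 1, (α.map γ.continuous).Homotopic h := by
    intro γ hγ
    obtain ⟨t, ht0, htm, ⟨N, hN⟩, ht⟩ := exists_monotone_Icc_subset_open_cover_unitInterval
      (c := fun i => γ ⁻¹' (U i)) (fun i => (hopen i).preimage γ.continuous) (by
        intro u _
        obtain ⟨i, hi⟩ := hcov (γ u)
        exact Set.mem_iUnion.2 ⟨i, hi⟩)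
    have claim : ∀ n, ∀ s : I, t n = s → ∀ i (h : Path (γ 0) (γ s)), (∀ u, h u ∈ U i) →
        ∀ α : Path (0 : I) s, (α.map γ.continuous).Homotopic h := by
      intro n
      induction n with
      | zero =>
        intro s hs i h hh α
        rw [ht0] at hs
        subst hs
        have h1 : α.Homotopic (Path.refl 0) := SimplyConnectedSpace.paths_homotopic _ _
        have h2 := h1.map γ
        refine h2.trans (hsc i _ _ ?_ hh)
        intro u
        change γ 0 ∈ U i
        rw [hγ]
        exact hx0 i
      | succ n ih =>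
        intro s hs i h hh α
        subst hs
        obtain ⟨i1, hi1⟩ := ht n
        obtain ⟨α1, -⟩ := seg_path 0 (t n) (by
          rw [← ht0]
          exact htm (Nat.zero_le _))
        obtain ⟨β, hβ⟩ := seg_path (t n) (t (n + 1)) (htm (Nat.le_succ n))
        have h1 : α.Homotopic (α1.trans β) := SimplyConnectedSpace.paths_homotopic _ _
        have h2 := h1.map γ
        rw [Path.map_trans] at h2
        have hmem1 : γ (t n) ∈ U i1 := hi1 ⟨le_rfl, htm (Nat.le_succ n)⟩
        have hmem2 : γ (t (n + 1)) ∈ U i1 := hi1 ⟨htm (Nat.le_succ n), le_rfl⟩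
        obtain ⟨g0, hg0⟩ := hpc i1 i1 (γ (t n)) ⟨hmem1, hmem1⟩
        let g : Path (γ 0) (γ (t n)) := g0.cast hγ rfl
        have hg : ∀ u, g u ∈ U i1 := fun u => (hg0 u).1
        have h3 := ih (t n) rfl i1 g hg α1
        have h4 := h2.trans (h3.hcomp (Path.Homotopic.refl (β.map γ.continuous)))
        have hmem3 : γ (t (n + 1)) ∈ U i := by
          have := hh 1
          rwa [h.target] at this
        obtain ⟨f0, hf0⟩ := hpc i1 i (γ (t (n + 1))) ⟨hmem2, hmem3⟩
        let f : Path (γ 0) (γ (t (n + 1))) := f0.cast hγ rfl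
        have hf1 : ∀ u, f u ∈ U i1 := fun u => (hf0 u).1
        have hf2 : ∀ u, f u ∈ U i := fun u => (hf0 u).2
        have h5 : (g.trans (β.map γ.continuous)).Homotopic f := by
          refine hsc i1 _ _ ?_ hf1
          intro u
          rw [Path.trans_apply]
          split_ifs
          · exact hg _
          · exact hi1 (hβ _)
        exact (h4.trans h5).trans (hsc i _ _ hf2 hh)
    intro i h hh α
    have h1 := claim N 1 (hN N le_rfl) i h hh α
    exact h1
  have hpath : ∀ x, Joined x0 x := by
    intro x
    obtain ⟨i, hi⟩ := hcov x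
    exact (hpc i i x ⟨hi, hi⟩).joined
  rw [simply_connected_iff_paths_homotopic']
  refine ⟨{ nonempty := ⟨x0⟩, joined := fun x y => (hpath x).symm.trans (hpath y) }, ?_⟩
  -- paths from the common point
  have h0 : ∀ {y : X} (p q : Path x0 y), p.Homotopic q := by
    intro y p q
    obtain ⟨i, hi⟩ := hcov y
    obtain ⟨h, hh⟩ := hpc i i y ⟨hi, hi⟩
    have h1 : ∀ r : Path x0 y, r.Homotopic h := by
      intro r
      have e0 : r.toContinuousMap 0 = x0 := r.source
      have e1 : r.toContinuousMap 1 = y := r.target
      obtain ⟨id1, -⟩ : ∃ α : Path (0 : I) 1, ∀ t, α t = t :=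
        ⟨{ toFun := fun t => t, continuous_toFun := continuous_id, source' := rfl,
           target' := rfl }, fun t => rfl⟩
      let α : Path (0 : I) 1 :=
        { toFun := fun t => t, continuous_toFun := continuous_id, source' := rfl, target' := rfl }
      have h2 := key r.toContinuousMap e0 i (h.cast e0 e1) (fun u => (hh u).1) α
      have h3 := h2.pathCast e0.symm e1.symm
      exact h3
    exact (h1 p).trans (h1 q).symm
  intro x y p q
  obtain ⟨g⟩ := hpath x
  have h1 := h0 (g.trans p) (g.trans q)
  have h2 : (g.symm.trans (g.trans p)).Homotopic (g.symm.trans (g.trans q)) :=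
    (Path.Homotopic.refl _).hcomp h1
  have h3 : ∀ r : Path x y, (g.symm.trans (g.trans r)).Homotopic r := by
    intro r
    have e1 : ((g.symm.trans g).trans r).Homotopic (g.symm.trans (g.trans r)) :=
      ⟨Path.Homotopy.transAssoc _ _ _⟩
    have e2 : (g.symm.trans g).Homotopic (Path.refl x) :=
      ⟨(Path.Homotopy.reflSymmTrans g).symm⟩
    exact e1.symm.trans ((e2.hcomp (Path.Homotopic.refl r)).trans ⟨Path.Homotopy.reflTrans r⟩)
  exact (h3 p).symm.trans (h2.trans (h3 q))

end cover

end Pool.Agent.TH710.SP
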