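import Pool.Agent.TH710.SP.Main
import Pool.Agent.TH710.SP.Defs

/-!
Nested varieties without holomorphic tensor differentials are linear spaces.
-/

set_option autoImplicit false

open FF MvPolynomial Pool.Agent.W603.LV Pool.Agent.W603.GR Pool.Agent.W603.GW
  Pool.Agent.W602.GT Pool.Agent.W603.GX Pool.Agent.W603.GY Pool.Agent.TH710.ND

namespace Pool.Agent.TH710.SP

variable {k K : Type} [Field k] [Field K] [Algebra k K]

/-- a multiple of the `M`-th power of `dt_1 ∧ ... ∧ dt_h`, as a tensor -/
noncomputable def tens {h : ℕ} (t : Fin h → K) (M : ℕ) (g : K) :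
    MultilinearMap K (fun _ : Fin (M * h) => Derivation k K K) K where
  toFun D := g * ∏ a : Fin M, dform t (fun i => D (finProdFinEquiv (a, i)))
  map_update_add' := by
    intro _ D j x x'
    obtain ⟨⟨a0, i0⟩, rfl⟩ := finProdFinEquiv.surjective j
    have h1 : ∀ z, ∏ a : Fin M, dform t (fun i => Function.update D (finProdFinEquiv (a0, i0)) z
        (finProdFinEquiv (a, i))) =
        dform t (Function.update (fun i => D (finProdFinEquiv (a0, i))) i0 z) *
          ∏ a ∈ Finset.univ.erase a0, dform t (fun i => D (finProdFinEquiv (a, i))) := by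
      intro z
      rw [← Finset.mul_prod_erase Finset.univ _ (Finset.mem_univ a0)]
      congr 1
      · congr 1
        funext i
        by_cases hi : i = i0
        · rw [hi, Function.update_self, Function.update_self]
        · rw [Function.update_of_ne hi, Function.update_of_ne]
          intro h2
          have h3 := finProdFinEquiv.injective h2
          exact hi (Prod.ext_iff.1 h3).2
      · refine Finset.prod_congr rfl fun a ha => ?_
        congr 1
        funext i
        rw [Function.update_of_ne]
        intro h2
        have h3 := finProdFinEquiv.injective h2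
        exact Finset.ne_of_mem_erase ha (Prod.ext_iff.1 h3).1
    rw [h1, h1, h1, (dform t).map_update_add]
    ring
  map_update_smul' := by
    intro _ D j c x
    obtain ⟨⟨a0, i0⟩, rfl⟩ := finProdFinEquiv.surjective j
    have h1 : ∀ z, ∏ a : Fin M, dform t (fun i => Function.update D (finProdFinEquiv (a0, i0)) z
        (finProdFinEquiv (a, i))) =
        dform t (Function.update (fun i => D (finProdFinEquiv (a0, i))) i0 z) *
          ∏ a ∈ Finset.univ.erase a0, dform t (fun i => D (finProdFinEquiv (a, i))) := by
      intro z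
      rw [← Finset.mul_prod_erase Finset.univ _ (Finset.mem_univ a0)]
      congr 1
      · congr 1
        funext i
        by_cases hi : i = i0
        · rw [hi, Function.update_self, Function.update_self]
        · rw [Function.update_of_ne hi, Function.update_of_ne]
          intro h2
          have h3 := finProdFinEquiv.injective h2
          exact hi (Prod.ext_iff.1 h3).2
      · refine Finset.prod_congr rfl fun a ha => ?_
        congr 1
        funext i
        rw [Function.update_of_ne]
        intro h2
        have h3 := finProdFinEquiv.injective h2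
        exact Finset.ne_of_mem_erase ha (Prod.ext_iff.1 h3).1
    rw [h1, h1, (dform t).map_update_smul]
    simp only [smul_eq_mul]
    ring

theorem tens_apply {h : ℕ} (t : Fin h → K) (M : ℕ) (g : K)
    (D : Fin (M * h) → Derivation k K K) :
    tens t M g D = g * ∏ a : Fin M, dform t (fun i => D (finProdFinEquiv (a, i))) := rfl

/-- **Fields without tensor differentials.** -/
theorem const_of_noTensors [IsAlgClosed k] [CharZero k] {w : ℕ} (htr : Algebra.trdeg k K = w)
    (G : CFam k K → Prop) {Bd : Place k K → Prop} (hBd : ∀ P, ¬ Bd P) {N s c : ℕ}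
    (hG : ∀ A, G A → A.Ok Bd N s c)
    (hN : w * (c * ((s + 1) * tn (s - 1))) ≤ N) {B : ℕ}
    (hB : w * (c * ((s + 1) * tn (s - 1))) * w ≤ B) (hs : NoTensors k K w B) :
    ∀ A, G A → ∀ i a b, ∃ c : k, A.T i a / A.T i b = algebraMap k K c := by
  rcases forms_fam htr G hG hN with ⟨h, M, t, g, h0, hM, ⟨hhw, hMw⟩, hind, hg0, hg, hP⟩ | h1
  · exfalso
    have h1 := hs (M * h) (Nat.mul_pos hM h0) ((Nat.mul_le_mul hMw hhw).trans hB)
        (tens t M (g 0)) (by
      intro P _ D hD
      rw [tens_apply]
      have h2 : ∀ a : Fin M, P.Reg (g 0 * dform t (fun i => D (finProdFinEquiv (a, i))) ^ M) :=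
        fun a => (hP P fun i => D (finProdFinEquiv (a, i))).2 (hBd P)
          (fun i => hD _) 0
      by_cases hz : ∃ a : Fin M, dform t (fun i => D (finProdFinEquiv (a, i))) = 0
      · obtain ⟨a, ha⟩ := hz
        rw [Finset.prod_eq_zero (Finset.mem_univ a) ha, mul_zero]
        exact Or.inl rfl
      · push Not at hz
        have hpr : ∏ a : Fin M, dform t (fun i => D (finProdFinEquiv (a, i))) ≠ 0 :=
          Finset.prod_ne_zero_iff.2 fun a _ => hz a
        right
        rw [P.ord_mul hg0 hpr, ord_prod' P _ _ fun a _ => hz a]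
        have h3 : ∀ a : Fin M, 0 ≤ P.ord (g 0) +
            M * P.ord (dform t (fun i => D (finProdFinEquiv (a, i)))) := by
          intro a
          rcases h2 a with h4 | h4
          · exact absurd h4 (mul_ne_zero hg0 (pow_ne_zero _ (hz a)))
          · rwa [P.ord_mul hg0 (pow_ne_zero _ (hz a)), P.ord_pow] at h4
        have h5 : (0 : ℤ) ≤ ∑ a : Fin M, (P.ord (g 0) +
            M * P.ord (dform t (fun i => D (finProdFinEquiv (a, i))))) :=
          Finset.sum_nonneg fun a _ => h3 a
        rw [Finset.sum_add_distrib, ← Finset.mul_sum, Finset.sum_const, Finset.card_univ,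
          Fintype.card_fin, nsmul_eq_mul, ← mul_add] at h5
        exact nonneg_of_mul_nonneg_right h5 (by exact_mod_cast hM))
    obtain ⟨D, hD⟩ := dform_ne htr hind
    have h2 := congrArg (fun ω => ω (fun j => D (finProdFinEquiv.symm j).2)) h1
    simp only [tens_apply, Equiv.symm_apply_apply, hD, Finset.prod_const_one, mul_one,
      zero_apply] at h2
    exact hg0 h2
  · exact h1

variable {n : ℕ} {ι κ : Type}

/-- **Nested varieties without tensor differentials.** -/
theorem lin_of_noTensors [IsAlgClosed k] [CharZero k] [Finite κ] [IsEmpty κ]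
    {F : ι → MvPolynomial (Fin (n + 1)) k}
    {Q : κ → MvPolynomial (Fin (n + 1)) k} {s N H : ℕ}
    (hF : ∀ i, IsNested s N H (F i)) (hN : bnd n s H ≤ N) {w : ℕ}
    {y : Fin (n + 1) → K} (hy : SubVarQ F Q K w y) (hcomp : IsComponentQ F Q y) {B : ℕ}
    (hB : (bnd n s H - 1) * n ≤ B) (hs : NoTensors k K w B) :
    ∃ (r q : ℕ) (m v : Fin r → Fin (n + 1) → k) (e : Fin q → Fin r) (a : κ → Fin q) (c : κ → k),
      LinPair Q y m v e a c := by
  have halg : Algebra.IsAlgebraic (coords k y) K := by
    rw [hy.gen]
    infer_instance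
  have hwn := dim_le hy.ne halg hy.dim
  have hb : w * ((H + 1) * (2 * s * (2 * s)) * ((2 * s + 1) * tn (2 * s - 1))) ≤
      bnd n s H - 1 := by
    refine le_trans (Nat.mul_le_mul_right _ hwn) ?_
    unfold bnd
    omega
  refine lin_core hF (fun j => isEmptyElim j) hN hy hcomp (fun o => ?_)
    (fun j => isEmptyElim j)
  refine const_of_noTensors hy.dim _ (Bd := OffAny Q y) (fun P => ?_) (N := N) (s := 2 * s)
    (c := (H + 1) * (2 * s * (2 * s))) ?_ (hb.trans (by omega))
    ((Nat.mul_le_mul hb hwn).trans hB) hs
  · rintro ⟨j, -⟩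
    exact isEmptyElim j
  · rintro A ⟨c', hA⟩
    exact hA.ok.1.mono hA.ok.2

end Pool.Agent.TH710.SP
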