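import Pool.Agent.TH710.SP.Final
import Pool.Agent.TH710.SP.Tens

/-!
The projective case, and linear subspaces as sets closed under linear combinations.
-/

set_option autoImplicit false

open FF MvPolynomial Pool.Agent.W603.LV Pool.Agent.W603.GR Pool.Agent.W603.GW
  Pool.Agent.W602.GT Pool.Agent.W603.GX Pool.Agent.W603.GY Pool.Agent.TH710.ND

namespace Pool.Agent.TH710.SP

variable {k : Type} [Field k] {n : ℕ} {ι κ : Type}

theorem hull_of_var' {K : Type} [Field K] [Algebra k K] {y : Fin (n + 1) → K}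
    {x : Fin (n + 1) → k} (hx : x ∈ VarPts k y) : x ∈ Hull k y := by
  intro l hl
  have h1 := hx.2 (lf l) ⟨1, lf_hom l⟩ (by rw [val_lf]; exact hl)
  rwa [val_lf] at h1

theorem LinPair.isLinear {K : Type} [Field K] [Algebra k K]
    {Q : κ → MvPolynomial (Fin (n + 1)) k} {y : Fin (n + 1) → K} {r q : ℕ}
    {m v : Fin r → Fin (n + 1) → k} {e : Fin q → Fin r} {a : κ → Fin q} {c : κ → k}
    (h : LinPair Q y m v e a c) : IsLinear k y := by
  intro a ha b hb c c' hne
  refine ⟨hne, fun G hG hyG => h.var _ ?_ G hG hyG⟩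
  intro l hl
  have h1 : lin l (c • a + c' • b) = c * lin l a + c' * lin l b := by
    unfold lin
    rw [Finset.mul_sum, Finset.mul_sum, ← Finset.sum_add_distrib]
    refine Finset.sum_congr rfl fun i _ => ?_
    simp only [Pi.add_apply, Pi.smul_apply, smul_eq_mul]
    ring
  rw [h1, hull_of_var' ha l hl, hull_of_var' hb l hl, mul_zero, mul_zero, add_zero]

theorem bnd_le {n s H N : ℕ} (hN : n * ((H + 1) * (2 * s * (2 * s)) * ((2 * s + 1) *
    ((2 * s - 1) * (2 * s - 2) / 2))) + 1 ≤ N) : bnd n s H ≤ N := by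
  have h1 : tn (2 * s - 1) = (2 * s - 1) * (2 * s - 2) / 2 := by
    unfold tn
    rw [Fin.sum_univ_eq_sum_range (fun i => i), Finset.sum_range_id, Nat.sub_sub]
  unfold bnd
  rwa [h1]

/-- no boundary -/
def noQ (k : Type) [Field k] (n : ℕ) : Empty → MvPolynomial (Fin (n + 1)) k := Empty.elim

theorem subQ {K : Type} [Field K] [Algebra k K] {F : ι → MvPolynomial (Fin (n + 1)) k}
    {w : ℕ} {y : Fin (n + 1) → K} (hy : SubVar F K w y) : SubVarQ F (noQ k n) K w y :=
  ⟨hy.ne, hy.mem, fun j => j.elim, hy.gen, hy.dim⟩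

theorem compQ {K : Type} [Field K] [Algebra k K] {F : ι → MvPolynomial (Fin (n + 1)) k}
    {y : Fin (n + 1) → K} (h : IsComponent F y) : IsComponentQ F (noQ k n) y := by
  obtain ⟨H, hH, hHy, hx⟩ := h
  exact ⟨H, hH, hHy, fun x hx1 hx2 => hx x ⟨hx1.1, hx1.2.1⟩ hx2⟩

theorem offQ {K : Type} [Field K] [Algebra k K] (y : Fin (n + 1) → K) :
    OffAny (noQ k n) y = fun _ => False := by
  funext P
  apply propext
  constructor
  · rintro ⟨j, -⟩
    exact j.elim
  · exact False.elim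

theorem ptsQ {K : Type} [Field K] [Algebra ℂ K] (y : Fin (n + 1) → K) :
    XPts (noQ ℂ n) y = VPts y := by
  ext p
  constructor
  · rintro ⟨x, hx, hxV, -⟩
    exact ⟨x, hx, hxV⟩
  · rintro ⟨x, hx, hxV⟩
    exact ⟨x, hx, hxV, fun j => j.elim⟩

/-- **Special projective varieties.** -/
theorem proj_special {F : ι → MvPolynomial (Fin (n + 1)) ℂ} {s N H : ℕ}
    (hF : ∀ i, IsNested s N H (F i)) (hN : bnd n s H ≤ N) {K : Type} [Field K] [Algebra ℂ K]
    {w : ℕ} {y : Fin (n + 1) → K} (hy : SubVar F K w y) (hcomp : IsComponent F y)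
    (hs : Special ℂ K w (fun _ => False)) :
    IsLinear ℂ y ∧ SimplyConnectedSpace (VPts y) := by
  obtain ⟨r, q, m, v, e, a, c, h⟩ := lin_of_special hF (fun j => j.elim) hN (subQ hy)
    (compQ hcomp) (by rw [offQ]; exact hs)
  refine ⟨h.isLinear, ?_⟩
  rw [← ptsQ]
  exact h.simply hy.ne

/-- **Projective varieties without tensor differentials.** -/
theorem proj_noTensors [IsAlgClosed k] [CharZero k] {F : ι → MvPolynomial (Fin (n + 1)) k}
    {s N H : ℕ} (hF : ∀ i, IsNested s N H (F i))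
    (hN : n * ((H + 1) * (2 * s * (2 * s)) * ((2 * s + 1) *
      ((2 * s - 1) * (2 * s - 2) / 2))) + 1 ≤ N)
    {K : Type} [Field K]
    [Algebra k K] {w : ℕ} {y : Fin (n + 1) → K} (hy : SubVar F K w y) (hcomp : IsComponent F y)
    (hs : NoTensors k K w (n * (n * ((H + 1) * (2 * s * (2 * s)) * ((2 * s + 1) *
      ((2 * s - 1) * (2 * s - 2) / 2)))))) : IsLinear k y := by
  have h1 : tn (2 * s - 1) = (2 * s - 1) * (2 * s - 2) / 2 := by
    unfold tn
    rw [Fin.sum_univ_eq_sum_range (fun i => i), Finset.sum_range_id, Nat.sub_sub]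
  obtain ⟨r, q, m, v, e, a, c, h⟩ := lin_of_noTensors hF (bnd_le hN) (subQ hy) (compQ hcomp)
    (B := n * (n * ((H + 1) * (2 * s * (2 * s)) * ((2 * s + 1) *
      ((2 * s - 1) * (2 * s - 2) / 2))))) (by
      unfold bnd
      rw [h1, Nat.add_sub_cancel, mul_comm]) hs
  exact h.isLinear

/-- **Special quasi-projective varieties.** -/
theorem open_special (hn : 1 ≤ n) [Finite κ] [Nonempty κ] {F : ι → MvPolynomial (Fin (n + 1)) ℂ}
    {Q : κ → MvPolynomial (Fin (n + 1)) ℂ} {s N H : ℕ}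
    (hF : ∀ i, IsNested s N H (F i)) (hQ : ∀ j, IsNested s N H (Q j)) (hN : bnd n s H ≤ N)
    {K : Type} [Field K] [Algebra ℂ K] {w : ℕ} {y : Fin (n + 1) → K}
    (hy : SubVarQ F Q K w y) (hcomp : IsComponentQ F Q y)
    (hs : Special ℂ K w (OffAny Q y) ∨ ∃ f, DenseCurve Q y f) :
    IndependentHyperplanes Q y ∧
      ∀ (p : XPts Q y) (a b : FundamentalGroup (XPts Q y) p), a * b = b * a := by
  have key : ∃ (r q : ℕ) (m v : Fin r → Fin (n + 1) → ℂ) (e : Fin q → Fin r) (a : κ → Fin q)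
      (c : κ → ℂ), LinPair Q y m v e a c := by
    rcases hs with h | ⟨f, hf⟩
    · exact lin_of_special hF hQ hN hy hcomp h
    · exact lin_of_curve hn hF hQ hN hy hcomp hf
  obtain ⟨r, q, m, v, e, a, c, h⟩ := key
  refine ⟨⟨h.isLinear, q, fun b => m (e b), a, c, h.frame.ind.comp e h.inj, h.surj, h.cne,
    fun j x hx => ?_⟩, fun p => ?_⟩
  · rw [← lin_base]
    exact h.bd j x (hull_of_var' hx)
  exact group_comm p (h.comm (a (Classical.arbitrary κ)) p)

end Pool.Agent.TH710.SP
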